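import Pool.Agent.Helper3.E4.Var
import Pool.Agent.Helper74.EV4.TopEnd
import Pool.Agent.Helper3.EVC.E14
import Pool.Agent.Helper3.EVC.E15

/-!
# UNI, analytic half: hypothesis, variance, mean, top end

No information on the roots near the positive axis below the radius `r₀`, nor on the small roots.
-/

set_option autoImplicit false

namespace Pool.Agent.Helper74.UNI

open Polynomial EVC Pool.Agent.Helper74.EV4
open Pool.Agent.Helper3.E4 (wt_pos)

/-- The input of the core. -/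
structure HypU (b T κ r₀ : ℝ) (L : ℕ) (P : ℝ[X]) : Prop extends EVC.Nice L P where
  dist : ∀ ρ ∈ EVC.Z P, ∀ r : ℝ, r₀ ≤ r → b * (r + ‖ρ‖) ≤ ‖(r : ℂ) - ρ‖
  far : ∀ ρ ∈ EVC.Z P, ‖ρ‖ ≤ T
  up : P.eval 1 ≤ 4 ^ L
  dec : ∀ r θ : ℝ, r₀ ≤ r → |θ| ≤ Real.pi →
    ‖aeval (EVC.pt r θ) P‖ ≤ Real.exp (-(κ * L * wt r * (1 - Real.cos θ))) * P.eval r

/-- the constants are admissible -/
structure AdmU (b T κ r₀ : ℝ) : Prop where
  hb : 0 < b
  hb1 : b ≤ 1
  hT : 1 ≤ T
  hκ : 0 < κ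
  hκ1 : κ ≤ 1
  hr0 : 0 < r₀
  hr1 : r₀ < 1

section

variable {b T κ r₀ : ℝ}

theorem norm_p_leU (hA : AdmU b T κ r₀) {L : ℕ} {P : ℝ[X]} (h : HypU b T κ r₀ L P) {r : ℝ} (hr : 0 < r) (hrr : r₀ ≤ r)
    {ρ : ℂ} (hρ : ρ ∈ Z P) : ‖p r ρ‖ ≤ 1 / b := by
  have h1 := h.dist ρ hρ r hrr
  have hb := hA.hb
  have h2 : b * r ≤ ‖(r : ℂ) - ρ‖ := by
    refine le_trans ?_ h1
    have := norm_nonneg ρ
    nlinarith
  have h3 := lt_of_lt_of_le (by positivity : 0 < b * r) h2
  unfold p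
  rw [norm_div, Complex.norm_real, Real.norm_of_nonneg hr.le, div_le_div_iff₀ h3 hb]
  linarith

/-- the lower bound of the variance, from the decay at small angles -/
theorem var_geU (hA : AdmU b T κ r₀) {L : ℕ} {P : ℝ[X]} (h : HypU b T κ r₀ L P) {r : ℝ}
    (hr : 0 < r) (hrr : r₀ ≤ r) : κ * L * wt r ≤ V P r := by
  obtain ⟨θ₂, hθ₂, K, hK, hlf⟩ := local_form (B := 1 / b) (by
    rw [le_div_iff₀ hA.hb]
    linarith [hA.hb1])
  have hκ := hA.hκ
  have hw := wt_pos hr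
  have hPr := h.toNice.eval_pos hr
  obtain ⟨a, ha⟩ : ∃ a, a = κ * L * wt r := ⟨_, rfl⟩
  have ha0 : 0 ≤ a := by rw [ha]; positivity
  have hW : 0 ≤ W P r := by
    unfold W
    apply Multiset.sum_nonneg
    intro x hx
    obtain ⟨ρ, -, rfl⟩ := Multiset.mem_map.1 hx
    exact norm_nonneg _
  rw [← ha]
  refine le_of_forall_pos_le_add fun ε hε => ?_
  obtain ⟨θ, hθ⟩ : ∃ θ, θ = min (min θ₂ 1) (ε / (2 * K * W P r + a + 1)) := ⟨_, rfl⟩
  have hden : 0 < 2 * K * W P r + a + 1 := by positivity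
  have hθ0 : 0 < θ := by
    rw [hθ]
    refine lt_min (lt_min hθ₂ one_pos) (by positivity)
  have hθ1 : θ ≤ θ₂ := by
    rw [hθ]
    exact (min_le_left _ _).trans (min_le_left _ _)
  have hθ2 : θ ≤ 1 := by
    rw [hθ]
    exact (min_le_left _ _).trans (min_le_right _ _)
  have hθ3 : θ * (2 * K * W P r + a + 1) ≤ ε := by
    rw [← le_div_iff₀ hden, hθ]
    exact min_le_right _ _
  obtain ⟨w, hw1, hw2⟩ := hlf L P h.toNice r hr (fun ρ hρ => norm_p_leU hA h hr hrr hρ) θ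
    (by rw [abs_of_pos hθ0]; exact hθ1)
  rw [abs_of_pos hθ0] at hw1
  have hd := h.dec r θ hrr (by
    rw [abs_of_pos hθ0]
    linarith [Real.pi_gt_three])
  rw [hw2, norm_mul, Complex.norm_real, Real.norm_of_nonneg hPr.le, Complex.norm_exp, mul_comm,
    ← ha] at hd
  have hd2 := le_of_mul_le_mul_right hd hPr
  have hd3 := Real.exp_le_exp.1 hd2
  have hre : ((θ : ℂ) * (mean P r : ℂ) * Complex.I - (θ : ℂ) ^ 2 / 2 * (V P r : ℂ) + w).re =
      -(θ ^ 2 / 2 * V P r) + w.re := by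
    have e1 : (θ : ℂ) ^ 2 / 2 * (V P r : ℂ) = ((θ ^ 2 / 2 * V P r : ℝ) : ℂ) := by
      push_cast
      ring
    have e2 : ((θ : ℂ) * (mean P r : ℂ) * Complex.I).re = 0 := by
      have : (θ : ℂ) * (mean P r : ℂ) * Complex.I = ((θ * mean P r : ℝ) : ℂ) * Complex.I := by
        push_cast
        ring
      rw [this, Complex.re_ofReal_mul, Complex.I_re, mul_zero]
    rw [Complex.add_re, Complex.sub_re, e1, Complex.ofReal_re, e2]
    ring
  rw [hre] at hd3
  have hwr : -‖w‖ ≤ w.re := (abs_le.1 (Complex.abs_re_le_norm _)).1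
  have hcos := (abs_le.1 (Real.cos_bound (x := θ) (by rw [abs_of_pos hθ0]; exact hθ2))).2
  rw [abs_of_pos hθ0] at hcos
  have h1 : θ ^ 2 / 2 - θ ^ 4 * (5 / 96) ≤ 1 - Real.cos θ := by linarith
  have h2 : a * (θ ^ 2 / 2 - θ ^ 4 * (5 / 96)) ≤ a * (1 - Real.cos θ) :=
    mul_le_mul_of_nonneg_left h1 ha0
  have h3 : a * (θ ^ 2 / 2) ≤ θ ^ 2 / 2 * V P r + K * W P r * θ ^ 3 + a * (θ ^ 4 * (5 / 96)) := by
    linarith
  have h4 : θ ^ 2 / 2 * a ≤ θ ^ 2 / 2 * (V P r + ε) := by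
    have h5 : θ ^ 4 ≤ θ ^ 3 := pow_le_pow_of_le_one hθ0.le hθ2 (by norm_num)
    have h6 : a * (θ ^ 4 * (5 / 96)) ≤ a * θ ^ 3 / 2 := by
      have h61 : 0 ≤ θ ^ 3 := by positivity
      have h62 : θ ^ 4 * (5 / 96) ≤ θ ^ 3 / 2 := by linarith
      calc a * (θ ^ 4 * (5 / 96)) ≤ a * (θ ^ 3 / 2) := mul_le_mul_of_nonneg_left h62 ha0
        _ = a * θ ^ 3 / 2 := by ring
    have h7 : θ ^ 2 / 2 * (θ * (2 * K * W P r + a + 1)) ≤ θ ^ 2 / 2 * ε :=
      mul_le_mul_of_nonneg_left hθ3 (by positivity)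
    have h8 : 0 ≤ θ ^ 3 := by positivity
    nlinarith
  exact le_of_mul_le_mul_left h4 (by positivity)

end

/-- **Large mean at a fixed large radius.** -/
theorem mean_largeU {b T κ r₀ : ℝ} (h : AdmU b T κ r₀) {ε : ℝ} (hε : 0 < ε) : ∃ r : ℝ, 1 ≤ r ∧ ∀ (L : ℕ) (P : ℝ[X]),
    HypU b T κ r₀ L P → P.natDegree - ε * L ≤ mean P r := by
  have hb := h.hb
  have hT := h.hT
  refine ⟨max 1 (T / (b * ε)), le_max_left _ _, ?_⟩
  intro L P hP
  obtain ⟨r, hr⟩ : ∃ r, r = max 1 (T / (b * ε)) := ⟨_, rfl⟩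
  rw [← hr]
  have hr1 : 1 ≤ r := by rw [hr]; exact le_max_left _ _
  have hr0 : 0 < r := by linarith
  have hr2 : T / (b * ε) ≤ r := by rw [hr]; exact le_max_right _ _
  have h1 := congrArg Complex.re (mean_eq hP.toNice hr0)
  rw [Complex.ofReal_re, re_sum_map] at h1
  have h2 : ∀ ρ ∈ Z P, 1 - ε ≤ (p r ρ).re := by
    intro ρ hρ
    have hd := hP.dist ρ hρ r (h.hr1.le.trans hr1)
    have hn := norm_nonneg ρ
    have hpos : 0 < ‖(r : ℂ) - ρ‖ := lt_of_lt_of_le (by positivity) hd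
    have hne : (r : ℂ) - ρ ≠ 0 := norm_pos_iff.1 hpos
    have e1 : p r ρ = 1 - (-ρ / ((r : ℂ) - ρ)) := by
      unfold p
      rw [eq_sub_iff_add_eq, ← add_div, ← sub_eq_add_neg, div_self hne]
    have h3 : ‖-ρ / ((r : ℂ) - ρ)‖ ≤ ε := by
      rw [norm_div, norm_neg, div_le_iff₀ hpos]
      have h4 : ε * (b * (r + ‖ρ‖)) ≤ ε * ‖(r : ℂ) - ρ‖ := mul_le_mul_of_nonneg_left hd hε.le
      refine le_trans ?_ h4
      have h5 : T ≤ r * (b * ε) := by rwa [div_le_iff₀ (by positivity)] at hr2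
      have h6 : 0 ≤ ε * (b * ‖ρ‖) := by positivity
      have h7 := hP.far ρ hρ
      nlinarith
    rw [e1, Complex.sub_re, Complex.one_re]
    have h5 := (le_abs_self _).trans ((Complex.abs_re_le_norm _).trans h3)
    linarith
  have h3 := Multiset.sum_map_le_sum_map _ _ h2
  rw [Multiset.map_const', Multiset.sum_replicate, nsmul_eq_mul, h1, card_Z] at h3
  have h4 : 2 * (P.natDegree : ℝ) ≤ L := by exact_mod_cast hP.deg
  have h5 : (0 : ℝ) ≤ P.natDegree := Nat.cast_nonneg _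
  nlinarith

/-- **The second coefficient from the top is linear.** -/
theorem sum_neg_geU {b T κ r₀ : ℝ} (h : AdmU b T κ r₀) {L : ℕ} {P : ℝ[X]} (hP : HypU b T κ r₀ L P) : κ / 8 * L ≤ ((Z P).map fun ρ => (-ρ).re).sum := by
  have hT := h.hT
  have hκ := h.hκ
  obtain ⟨r, hr⟩ : ∃ r, r = 40 * T ^ 2 / κ := ⟨_, rfl⟩
  have hr40 : 40 * T ^ 2 ≤ r := by
    rw [hr, le_div_iff₀ hκ]
    have := h.hκ1
    nlinarith [sq_nonneg T]
  have hT2 : T ≤ T ^ 2 := by nlinarith
  have hr0 : 0 < r := by nlinarith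
  have hr1 : 1 ≤ r := by nlinarith
  have hV1 := var_geU h hP hr0 (h.hr1.le.trans hr1)
  have e1 : V P r = ((Z P).map fun ρ => (p r ρ * (1 - p r ρ)).re).sum := by
    unfold V
    exact re_sum_map _ _
  have h1 : ∀ ρ ∈ Z P, r * (p r ρ * (1 - p r ρ)).re ≤ (-ρ).re + 10 * T ^ 2 / r := by
    intro ρ hρ
    have h2 := top_root hT (r := r) (by nlinarith) (hP.far ρ hρ)
    have h3 := (le_abs_self _).trans ((Complex.abs_re_le_norm _).trans h2)
    rw [Complex.sub_re, Complex.re_ofReal_mul] at h3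
    linarith
  have h2 := Multiset.sum_map_le_sum_map _ _ h1
  rw [Multiset.sum_map_mul_left, Multiset.sum_map_add, Multiset.map_const', Multiset.sum_replicate, nsmul_eq_mul,
    ← e1] at h2
  have h3 := card_Z_le hP.toNice
  have h4 : (Multiset.card (Z P) : ℝ) * (10 * T ^ 2 / r) ≤ (L : ℝ) / 2 * (10 * T ^ 2 / r) :=
    mul_le_mul_of_nonneg_right (by linarith) (by positivity)
  have h5 : 10 * T ^ 2 / r = κ / 4 := by
    rw [hr]
    field_simp
    norm_num
  have h6 : 1 / 4 ≤ r * wt r := by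
    unfold wt
    rw [← mul_div_assoc, div_le_div_iff₀ (by norm_num) (by positivity)]
    nlinarith
  have h7 : κ * L * (1 / 4) ≤ κ * L * (r * wt r) := mul_le_mul_of_nonneg_left h6 (by positivity)
  have h8 : r * (κ * L * wt r) ≤ r * V P r := mul_le_mul_of_nonneg_left hV1 hr0.le
  rw [h5] at h4 h2
  have h9 : κ * L * (r * wt r) = r * (κ * L * wt r) := by ring
  linarith

theorem dtop_posU {b T κ r₀ : ℝ} (h : AdmU b T κ r₀) : 0 < dtop T κ := by
  have := h.hκ
  have : 0 < T := by linarith [h.hT]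
  unfold dtop
  positivity

/-- **Top coefficients.** -/
theorem top4U {b T κ r₀ : ℝ} (h : AdmU b T κ r₀) {L : ℕ} (hL : 1 ≤ L) {P : ℝ[X]} (hP : HypU b T κ r₀ L P) (k : ℕ) (hk : (P.natDegree : ℝ) ≤ k + dtop T κ * L) :
    P.coeff (k - 1) * P.coeff (k + 1) ≤ P.coeff k ^ 2 := by
  have hT := h.hT
  have hκ := h.hκ
  have hL0 : (0 : ℝ) < L := by exact_mod_cast hL
  have h1 := sum_neg_geU h hP
  have h0 : P ≠ 0 := by
    rintro rfl
    have := hP.one
    simp at this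
    linarith
  have hlead : 0 < P.leadingCoeff := lt_of_le_of_ne (hP.nn _) (Ne.symm (leadingCoeff_ne_zero.2 h0))
  -- the degree is linear
  have h2 : ((Z P).map fun ρ => (-ρ).re).sum ≤ P.natDegree * T := by
    have h3 : ∀ ρ ∈ Z P, (-ρ).re ≤ T := fun ρ hρ => by
      have h4 := (le_abs_self _).trans (Complex.abs_re_le_norm (-ρ))
      rw [norm_neg] at h4
      exact h4.trans (hP.far ρ hρ)
    have h4 := Multiset.sum_map_le_sum_map _ _ h3
    rw [Multiset.map_const', Multiset.sum_replicate, nsmul_eq_mul, card_Z] at h4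
    exact h4
  have hd1 : κ / (8 * T) * L ≤ P.natDegree := by
    rw [div_mul_eq_mul_div, div_le_iff₀ (by positivity)]
    nlinarith
  have hd0 : (0 : ℝ) < P.natDegree := lt_of_lt_of_le (by positivity) hd1
  have hd : 1 ≤ P.natDegree := by
    have : 0 < P.natDegree := by exact_mod_cast hd0
    omega
  have h3 := Pool.Agent.Helper74.EV2.second_coeff (P := P) hd
  have h4 : P.coeff (P.natDegree - 1) = P.leadingCoeff * ((Z P).map fun ρ => (-ρ).re).sum := by
    have h5 := congrArg Complex.re h3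
    rw [Complex.ofReal_re, Complex.neg_re, Complex.re_ofReal_mul] at h5
    have h6 : ((Pool.Agent.Helper74.EV2.rts P).sum).re = -((Z P).map fun ρ => (-ρ).re).sum := by
      have h7 := re_sum_map (Z P) (fun ρ => ρ)
      rw [Multiset.map_id'] at h7
      have h8 : ((Z P).map fun ρ => (-ρ).re) = ((Z P).map fun ρ => -(ρ.re)) := by
        refine Multiset.map_congr rfl fun ρ _ => ?_
        rw [Complex.neg_re]
      have h9 : ∀ s : Multiset ℂ, (s.map fun ρ => -(ρ.re)).sum = -(s.map fun ρ => ρ.re).sum := by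
        intro s
        induction s using Multiset.induction_on with
        | empty => simp
        | cons a s ih =>
          rw [Multiset.map_cons, Multiset.sum_cons, ih, Multiset.map_cons, Multiset.sum_cons, neg_add]
      rw [h8, h9, neg_neg]
      exact h7
    rw [h5, h6]
    ring
  refine Pool.Agent.Helper74.EV2.top_of_roots (T := T) (c := κ / 4) hT (by positivity) (by linarith [h.hκ1]) P hlead
    (fun z hz => hP.far z hz) ?_ k ?_
  · rw [h4]
    have h5 : 2 * (P.natDegree : ℝ) ≤ L := by exact_mod_cast hP.deg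
    calc κ / 4 * P.natDegree * P.leadingCoeff = P.leadingCoeff * (κ / 4 * P.natDegree) := by ring
      _ ≤ P.leadingCoeff * (κ / 8 * L) := by
        refine mul_le_mul_of_nonneg_left ?_ hlead.le
        nlinarith
      _ ≤ _ := mul_le_mul_of_nonneg_left h1 hlead.le
  · refine hk.trans ?_
    have h5 : dtop T κ * L ≤ (κ / 4) ^ 2 / (32 * T ^ 2) * P.natDegree := by
      unfold dtop
      rw [mul_assoc]
      exact mul_le_mul_of_nonneg_left hd1 (by positivity)
    linarith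

end Pool.Agent.Helper74.UNI
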