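import Pool.Agent.Helper74.UNI.Basic

/-!
# UNI, analytic half: the core

All coefficients with index at least `ε L` are log-concave.
-/

set_option autoImplicit false

namespace Pool.Agent.Helper74.UNI

open Polynomial EVC Pool.Agent.Helper74.EV4
open Pool.Agent.Helper3.E4 (wt_pos)

theorem mean_mul {L : ℕ} {P : ℝ[X]} (h : Nice L P) {r : ℝ} (hr : 0 < r) :
    mean P r * P.eval r = ∑ k ∈ Finset.range (P.natDegree + 1), (k : ℝ) * (P.coeff k * r ^ k) := by
  have h0 := h.eval_pos hr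
  unfold mean
  rw [div_mul_cancel₀ _ h0.ne', Polynomial.derivative_eval,
    Polynomial.sum_over_range _ (by intro n; simp), Finset.mul_sum]
  refine Finset.sum_congr rfl fun k _ => ?_
  rcases Nat.eq_zero_or_pos k with rfl | hk
  · simp
  · obtain ⟨m, rfl⟩ : ∃ m, k = m + 1 := ⟨k - 1, by omega⟩
    rw [Nat.add_sub_cancel, pow_succ]
    ring

/-- **The mean at a small radius**, from the value at `1`. -/
theorem mean_log_le {L : ℕ} {P : ℝ[X]} (h : Nice L P) (up : P.eval 1 ≤ 4 ^ L) {r : ℝ} (hr : 0 < r) :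
    mean P r * Real.log (1 / r) ≤ L * Real.log 4 := by
  obtain ⟨l, hl⟩ : ∃ l, l = Real.log (1 / r) := ⟨_, rfl⟩
  have hel : Real.exp l = 1 / r := by rw [hl, Real.exp_log (by positivity)]
  obtain ⟨m, hm⟩ : ∃ m, m = mean P r := ⟨_, rfl⟩
  have hmm := mean_mul h hr
  rw [← hm] at hmm
  have hP : P.eval r = ∑ k ∈ Finset.range (P.natDegree + 1), P.coeff k * r ^ k :=
    Polynomial.eval_eq_sum_range r
  have hPr := h.eval_pos hr
  have h1 : P.eval 1 = ∑ k ∈ Finset.range (P.natDegree + 1), P.coeff k * r ^ k * Real.exp (l * k) := by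
    rw [Polynomial.eval_eq_sum_range]
    refine Finset.sum_congr rfl fun k _ => ?_
    have e1 : Real.exp (l * k) = (1 / r) ^ k := by
      rw [mul_comm, Real.exp_nat_mul, hel]
    rw [e1, one_pow, mul_one, mul_assoc, ← mul_pow, mul_one_div_cancel hr.ne', one_pow, mul_one]
  have h2 : ∀ k ∈ Finset.range (P.natDegree + 1),
      P.coeff k * r ^ k * (Real.exp (l * m) * (1 + l * (k - m))) ≤ P.coeff k * r ^ k * Real.exp (l * k) := by
    intro k _
    refine mul_le_mul_of_nonneg_left ?_ (mul_nonneg (h.nn k) (pow_nonneg hr.le k))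
    have h3 : Real.exp (l * k) = Real.exp (l * m) * Real.exp (l * (k - m)) := by
      rw [← Real.exp_add]
      congr 1
      ring
    rw [h3]
    refine mul_le_mul_of_nonneg_left ?_ (Real.exp_pos _).le
    have := Real.add_one_le_exp (l * (k - m))
    linarith
  have h3 : Real.exp (l * m) * P.eval r ≤ P.eval 1 := by
    rw [h1]
    refine le_trans (le_of_eq ?_) (Finset.sum_le_sum h2)
    have h4 : ∑ k ∈ Finset.range (P.natDegree + 1), P.coeff k * r ^ k * (Real.exp (l * m) * (1 + l * (k - m))) =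
        Real.exp (l * m) * ((1 - l * m) * ∑ k ∈ Finset.range (P.natDegree + 1), P.coeff k * r ^ k +
          l * ∑ k ∈ Finset.range (P.natDegree + 1), (k : ℝ) * (P.coeff k * r ^ k)) := by
      rw [Finset.mul_sum, Finset.mul_sum, ← Finset.sum_add_distrib, Finset.mul_sum]
      refine Finset.sum_congr rfl fun k _ => ?_
      ring
    rw [h4, ← hmm, ← hP]
    ring
  have h4 : 1 ≤ P.eval r := by
    have h5 : P.coeff 0 * r ^ 0 ≤ P.eval r := by
      rw [hP]
      apply Finset.single_le_sum (f := fun i => P.coeff i * r ^ i)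
      · intro i _
        exact mul_nonneg (h.nn i) (pow_nonneg hr.le i)
      · simp
    have h6 := h.one
    rw [pow_zero, mul_one] at h5
    linarith
  have h5 : Real.exp (l * m) ≤ 4 ^ L := by
    refine le_trans ?_ (h3.trans up)
    have : 0 < Real.exp (l * m) := Real.exp_pos _
    nlinarith
  have h6 := Real.log_le_log (Real.exp_pos _) h5
  rw [Real.log_exp, Real.log_pow] at h6
  rw [← hm, ← hl, mul_comm]
  exact h6

/-- the second absolute moment is at most linear -/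
theorem W_le_L {b T κ r₀ : ℝ} (hA : AdmU b T κ r₀) {L : ℕ} {P : ℝ[X]} (h : HypU b T κ r₀ L P) {r : ℝ}
    (hr : 0 < r) (hrr : r₀ ≤ r) : W P r ≤ 1 / b * (1 + 1 / b) * L := by
  have hb := hA.hb
  have h1 : ∀ ρ ∈ Z P, ‖p r ρ * (1 - p r ρ)‖ ≤ 1 / b * (1 + 1 / b) := by
    intro ρ hρ
    have h2 := norm_p_leU hA h hr hrr hρ
    have h3 : ‖1 - p r ρ‖ ≤ 1 + 1 / b := by
      refine (norm_sub_le _ _).trans ?_
      rw [norm_one]
      linarith
    rw [norm_mul]
    exact mul_le_mul h2 h3 (norm_nonneg _) (by positivity)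
  have h2 : W P r ≤ ((Z P).map fun _ => 1 / b * (1 + 1 / b)).sum := by
    unfold W
    exact Multiset.sum_map_le_sum_map _ _ h1
  rw [Multiset.map_const', Multiset.sum_replicate, nsmul_eq_mul] at h2
  have h3 := Pool.Agent.Helper3.E4.card_le h.toNice
  have h4 : (0 : ℝ) ≤ (Z P).card := Nat.cast_nonneg _
  have h5 : ((Z P).card : ℝ) * (1 / b * (1 + 1 / b)) ≤ L * (1 / b * (1 + 1 / b)) :=
    mul_le_mul_of_nonneg_right (by linarith) (by positivity)
  linarith

/-- **The bulk**: radii between `r₀` and `R`. -/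
theorem bulkU {b T κ r₀ : ℝ} (hA : AdmU b T κ r₀) {R : ℝ} (hR : 1 ≤ R) : ∃ L₀ : ℕ, ∀ L : ℕ, L₀ ≤ L →
    ∀ P : ℝ[X], HypU b T κ r₀ L P → ∀ r : ℝ, r₀ ≤ r → r ≤ R → ∀ k : ℕ, 1 ≤ k → mean P r = k →
      P.coeff (k - 1) * P.coeff (k + 1) < P.coeff k ^ 2 := by
  have hκ := hA.hκ
  have hb := hA.hb
  have hr0 := hA.hr0
  obtain ⟨θ₂, hθ₂, K, hK1, hlf⟩ := local_form (B := 1 / b) (by
    rw [le_div_iff₀ hb]
    linarith [hA.hb1])
  obtain ⟨B2, hB2⟩ : ∃ B2, B2 = 1 / b * (1 + 1 / b) := ⟨_, rfl⟩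
  have hB20 : 0 < B2 := by rw [hB2]; positivity
  obtain ⟨w, hw⟩ : ∃ w, w = r₀ / (1 + R) ^ 2 := ⟨_, rfl⟩
  have hw0 : 0 < w := by rw [hw]; positivity
  obtain ⟨V₀, hsad⟩ := saddle' θ₂ (K * (B2 / (κ * w))) 1 (κ * w / B2 * (1 / 5)) hθ₂ (by positivity) one_pos
    (by positivity)
  obtain ⟨L₀, hL₀⟩ := exists_nat_ge (V₀ / (κ * w))
  refine ⟨L₀, fun L hL P h r hra hrb k hk hmean => ?_⟩
  have hLR : (L₀ : ℝ) ≤ L := by exact_mod_cast hL
  have hLn : (0 : ℝ) ≤ L := Nat.cast_nonneg L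
  have hr : 0 < r := lt_of_lt_of_le hr0 hra
  have hPr := h.toNice.eval_pos hr
  have hwr : w ≤ wt r := by
    rw [hw]
    unfold wt
    have h7 : (1 + r) ^ 2 ≤ (1 + R) ^ 2 := pow_le_pow_left₀ (by linarith) (by linarith) 2
    exact div_le_div₀ hr.le hra (by positivity) h7
  have hV : κ * w * L ≤ V P r := by
    refine le_trans ?_ (var_geU hA h hr hra)
    have : κ * L * w ≤ κ * L * wt r := mul_le_mul_of_nonneg_left hwr (by positivity)
    linarith
  have hW : W P r ≤ B2 * L := by rw [hB2]; exact W_le_L hA h hr hra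
  have hWV : W P r ≤ B2 / (κ * w) * V P r := by
    refine hW.trans ?_
    calc B2 * L = B2 / (κ * w) * (κ * w * L) := by field_simp
      _ ≤ _ := mul_le_mul_of_nonneg_left hV (by positivity)
  have hVL : V P r ≤ B2 * L := (V_le_W P r).trans hW
  have hV0 : V₀ ≤ V P r := by
    have h8 := hL₀.trans hLR
    rw [div_le_iff₀ (by positivity)] at h8
    linarith
  have hVn : 0 ≤ V P r := le_trans (by positivity) hV
  refine hsad P h.nn k hk r (V P r) hr hV0 hPr ?_ ?_
  · intro x hx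
    obtain ⟨w', hw1, hw2⟩ := hlf L P h.toNice r hr (fun ρ hρ => norm_p_leU hA h hr hra hρ) x hx
    refine ⟨w', hw1.trans ?_, ?_⟩
    · have h2 : 0 ≤ |x| ^ 3 := by positivity
      calc K * W P r * |x| ^ 3 ≤ K * (B2 / (κ * w) * V P r) * |x| ^ 3 := by gcongr
        _ = K * (B2 / (κ * w)) * V P r * |x| ^ 3 := by ring
    · rw [hw2, hmean]
      congr 2
      push_cast
      ring
  · intro x hx
    refine (h.dec r x hra hx).trans ?_
    rw [one_mul]
    refine mul_le_mul_of_nonneg_right (Real.exp_le_exp.2 ?_) hPr.le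
    apply neg_le_neg
    have h1 := Helper92.EV.one_sub_cos_lower (abs_nonneg x) hx
    rw [Real.cos_abs, sq_abs] at h1
    have h2 : 1 / 5 * x ^ 2 ≤ 1 - Real.cos x := by linarith
    have h3 : κ * w / B2 * V P r ≤ κ * L * wt r := by
      calc κ * w / B2 * V P r ≤ κ * w / B2 * (B2 * L) := mul_le_mul_of_nonneg_left hVL (by positivity)
        _ = κ * L * w := by field_simp
        _ ≤ _ := mul_le_mul_of_nonneg_left hwr (by positivity)
    calc κ * w / B2 * (1 / 5) * V P r * x ^ 2 = κ * w / B2 * V P r * (1 / 5 * x ^ 2) := by ring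
      _ ≤ κ * L * wt r * (1 - Real.cos x) := by
        refine mul_le_mul h3 h2 (by positivity) ?_
        exact le_trans (by positivity) h3

/-- **The core.** All coefficients with index at least `ε L` are log-concave, if `log 4 ≤ ε log (1 / r₀)`. -/
theorem coreU (b T κ r₀ ε : ℝ) (hA : AdmU b T κ r₀) (hε : Real.log 4 ≤ ε * Real.log (1 / r₀)) :
    ∃ L₀ : ℕ, ∀ L : ℕ, L₀ ≤ L → ∀ P : ℝ[X], HypU b T κ r₀ L P →
      ∀ k : ℕ, 1 ≤ k → ε * L ≤ k → P.coeff (k - 1) * P.coeff (k + 1) ≤ P.coeff k ^ 2 := by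
  have hr0 := hA.hr0
  have hr1 := hA.hr1
  have hlog : 0 < Real.log (1 / r₀) := Real.log_pos (by rw [lt_div_iff₀ hr0]; linarith)
  have hτ := dtop_posU hA
  obtain ⟨R, hR1, hlarge⟩ := mean_largeU hA hτ
  obtain ⟨L₀, hL₀⟩ := bulkU hA hR1
  refine ⟨max L₀ 1, fun L hL P hP k hk hkε => ?_⟩
  have hLa : L₀ ≤ L := (le_max_left _ _).trans hL
  have hLc : 1 ≤ L := (le_max_right _ _).trans hL
  have hLn : (0 : ℝ) ≤ L := Nat.cast_nonneg L
  by_cases hk2 : (P.natDegree : ℝ) ≤ k + dtop T κ * L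
  · exact top4U hA hLc hP k hk2
  push Not at hk2
  have h1 := mean_log_le hP.toNice hP.up hr0
  have h2 := hlarge L P hP
  have h4 : mean P r₀ ≤ k := by
    refine le_trans ?_ hkε
    refine le_of_mul_le_mul_right (h1.trans ?_) hlog
    calc (L : ℝ) * Real.log 4 ≤ L * (ε * Real.log (1 / r₀)) := mul_le_mul_of_nonneg_left hε hLn
      _ = ε * L * Real.log (1 / r₀) := by ring
  have h5 : (k : ℝ) ≤ mean P R := by linarith
  obtain ⟨r, hr, hrk⟩ := intermediate_value_Icc (hr1.le.trans hR1) (mean_cont hP.toNice r₀ R hr0) ⟨h4, h5⟩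
  exact (hL₀ L hLa P hP r hr.1 hr.2 k hk hrk).le

end Pool.Agent.Helper74.UNI
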