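import Pool.Agent.Helper74.UNI.Vlin
import Pool.Agent.Helper74.EV4.Mid

/-!
# UNI*: the variance is linear at all radii as soon as the mean grows linearly
-/

set_option autoImplicit false

namespace Pool.Agent.Helper74.UNI

open Polynomial EVC Finset

theorem le_zero_of {a c θ₀ : ℝ} (hθ₀ : 0 < θ₀) (hc : 0 ≤ c) (h : ∀ θ : ℝ, 0 < θ → θ ≤ θ₀ → a ≤ c * θ) : a ≤ 0 := by
  by_contra hcon
  push Not at hcon
  have h1 : 0 < min θ₀ (a / (2 * (c + 1))) := lt_min hθ₀ (by positivity)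
  have h2 := h _ h1 (min_le_left _ _)
  have h3 : c * min θ₀ (a / (2 * (c + 1))) ≤ c * (a / (2 * (c + 1))) := mul_le_mul_of_nonneg_left (min_le_right _ _) hc
  have h4 : c * (a / (2 * (c + 1))) ≤ a / 2 := by
    rw [mul_div_assoc', div_le_div_iff₀ (by positivity) (by norm_num)]
    nlinarith
  linarith

theorem x2_le {b : ℝ} (hb : 0 < b) (hb1 : b ≤ 1) {L : ℕ} {P : ℝ[X]} (hL : 1 ≤ L) (h : Nice L P) {r : ℝ} (hr : 0 < r)
    {ρ : ℝ} {x : ℕ → ℝ} (hρ : 0 < ρ) (hx : Ex ρ L P r x) (hp : ∀ q ∈ Z P, ‖p r q‖ ≤ 1 / b) :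
    0 ≤ x 2 ∧ x 2 ≤ V P r / (2 * L) := by
  obtain ⟨θ₂, hθ₂, K, hK, hkey⟩ := key hb hb1
  have hpos := pos_of hρ hL h hr hx
  have hre : ∀ θ : ℝ, (((0 : ℝ) : ℂ) + θ * Complex.I).re = 0 := by
    intro θ
    simp
  have hnorm : ∀ θ : ℝ, ‖((0 : ℝ) : ℂ) + θ * Complex.I‖ = |θ| := by
    intro θ
    simp
  have hsum : ∀ θ : ℝ, ∑ j ∈ range 3, x j * ((0 : ℝ) ^ j - ((((0 : ℝ) : ℂ) + θ * Complex.I) ^ j).re) = x 2 * θ ^ 2 := by
    intro θ
    have e : (((0 : ℝ) : ℂ) + θ * Complex.I) ^ 2 = ((-(θ ^ 2) : ℝ) : ℂ) := by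
      push_cast
      rw [zero_add, mul_pow, Complex.I_sq]
      ring
    rw [sum_range_succ, sum_range_succ, sum_range_succ, sum_range_zero, e, pow_one, pow_one, hre, Complex.ofReal_re]
    simp
  constructor
  · have h1 : -x 2 ≤ 0 := by
      refine le_zero_of (θ₀ := ρ / 2) (c := 4 / ρ ^ 3) (by positivity) (by positivity) fun θ hθ0 hθ1 => ?_
      have h2 := hpos (((0 : ℝ) : ℂ) + θ * Complex.I) (by rw [hnorm, abs_of_pos hθ0]; exact hθ1) 3
      rw [hre, hsum, hnorm, abs_of_pos hθ0, mul_one, div_pow] at h2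
      have h3 : θ ^ 2 * -x 2 ≤ θ ^ 2 * (4 / ρ ^ 3 * θ) := by
        have : 4 * (θ ^ 3 / ρ ^ 3) = θ ^ 2 * (4 / ρ ^ 3 * θ) := by ring
        linarith
      exact le_of_mul_le_mul_left h3 (by positivity)
    linarith
  · have h1 : x 2 - V P r / (2 * L) ≤ 0 := by
      refine le_zero_of (θ₀ := min θ₂ (ρ / 2)) (c := K + 4 / ρ ^ 3) (by positivity) (by positivity) fun θ hθ0 hθ1 => ?_
      have h2 := hkey L P hL h r hr ρ x hρ hx 0 θ (by rw [Real.exp_zero, mul_one]; exact hp)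
        (by rw [abs_of_pos hθ0]; exact hθ1.trans (min_le_left _ _))
        (by rw [hnorm, abs_of_pos hθ0]; exact hθ1.trans (min_le_right _ _)) 3
      rw [Real.exp_zero, mul_one, hsum, hnorm, abs_of_pos hθ0, div_pow] at h2
      have h3 := (abs_le.1 h2).1
      have h4 : θ ^ 2 * (x 2 - V P r / (2 * L)) ≤ θ ^ 2 * ((K + 4 / ρ ^ 3) * θ) := by
        have e1 : K * θ ^ 3 + 4 * (θ ^ 3 / ρ ^ 3) = θ ^ 2 * ((K + 4 / ρ ^ 3) * θ) := by ring
        have e2 : θ ^ 2 * V P r / (2 * L) = θ ^ 2 * (V P r / (2 * L)) := by ring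
        rw [e2, e1] at h3
        linarith
      exact le_of_mul_le_mul_left h4 (by positivity)
    linarith

/-- **One step.** -/
theorem step {b : ℝ} (hb : 0 < b) (hb1 : b ≤ 1) (δ : ℝ) (hδ : 0 < δ) : ∃ η : ℝ, 0 < η ∧ ∀ (L : ℕ) (P : ℝ[X]), 1 ≤ L →
    Nice L P → ∀ r : ℝ, 0 < r → ∀ u : ℝ, |u| ≤ b / 16 → (∀ q ∈ Z P, ‖p r q‖ ≤ 1 / b) →
    (∀ q ∈ Z P, ‖p (r * Real.exp u) q‖ ≤ 1 / b) → V P r ≤ η * L → V P (r * Real.exp u) ≤ δ * L := by
  obtain ⟨θ₂, hθ₂, K, hK, hkey⟩ := key hb hb1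
  obtain ⟨ρ, hρ⟩ : ∃ ρ, ρ = 1 / (4 * (1 / b)) := ⟨_, rfl⟩
  have hρb : ρ = b / 4 := by
    rw [hρ]
    field_simp
  have hρ0 : 0 < ρ := by rw [hρb]; positivity
  obtain ⟨θ, hθ⟩ : ∃ θ, θ = min (min θ₂ (ρ / 4)) (δ / (8 * K)) := ⟨_, rfl⟩
  have hθ0 : 0 < θ := by
    rw [hθ]
    exact lt_min (lt_min hθ₂ (by positivity)) (by positivity)
  have hθ1 : θ ≤ θ₂ := by rw [hθ]; exact (min_le_left _ _).trans (min_le_left _ _)
  have hθ2 : θ ≤ ρ / 4 := by rw [hθ]; exact (min_le_left _ _).trans (min_le_right _ _)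
  have hθ3 : K * θ ≤ δ / 8 := by
    have h1 : θ ≤ δ / (8 * K) := by rw [hθ]; exact min_le_right _ _
    rw [le_div_iff₀ (by positivity)] at h1
    linarith
  obtain ⟨n, hn⟩ := exists_pow_lt_of_lt_one (by positivity : 0 < θ ^ 2 * δ / 32) (by norm_num : (1 / 2 : ℝ) < 1)
  obtain ⟨M, hM⟩ : ∃ M, M = n + 2 := ⟨_, rfl⟩
  have hM2 : 2 ≤ M := by omega
  have hMn : (1 / 2 : ℝ) ^ M ≤ θ ^ 2 * δ / 32 := by
    refine le_trans ?_ hn.le
    exact pow_le_pow_of_le_one (by norm_num) (by norm_num) (by omega)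
  obtain ⟨δ₁, hδ₁⟩ : ∃ δ₁, δ₁ = θ ^ 2 * δ / (16 * M) := ⟨_, rfl⟩
  have hMR : (0 : ℝ) < M := by exact_mod_cast (by omega : 0 < M)
  have hδ0 : 0 < δ₁ := by rw [hδ₁]; positivity
  obtain ⟨η, hη, hseq⟩ := seq_small (C := 1) one_pos hρ0 M hM2 δ₁ hδ0
  refine ⟨η, hη, fun L P hL h r hr u hu hp hp' hV => ?_⟩
  have hLR : (0 : ℝ) < L := by exact_mod_cast hL
  obtain ⟨x, hx⟩ := expand (B := 1 / b) (by rw [le_div_iff₀ hb]; linarith) hL h hr hp
  rw [← hρ] at hx
  have hx : Ex ρ L P r x := hx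
  have h2 := x2_le hb hb1 hL h hr hρ0 hx hp
  have h2' : |x 2| ≤ η := by
    rw [abs_of_nonneg h2.1]
    refine h2.2.trans ?_
    rw [div_le_iff₀ (by positivity)]
    nlinarith
  have hsm := hseq x (pos_of hρ0 hL h hr hx) h2'
  have hw : ‖(u : ℂ) + θ * Complex.I‖ ≤ ρ / 2 := by
    refine (norm_add_le _ _).trans ?_
    rw [norm_mul, Complex.norm_I, mul_one, Complex.norm_real, Complex.norm_real, Real.norm_eq_abs, Real.norm_of_nonneg hθ0.le]
    linarith
  have hk := hkey L P hL h r hr ρ x hρ0 hx u θ hp' (by rw [abs_of_pos hθ0]; exact hθ1) hw M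
  rw [abs_of_pos hθ0] at hk
  have hk2 := (abs_le.1 hk).2
  have hwn := norm_nonneg ((u : ℂ) + θ * Complex.I)
  have hρ4 : ρ ≤ 1 / 4 := by rw [hρb]; linarith
  have hsum : ∑ j ∈ range M, x j * (u ^ j - (((u : ℂ) + θ * Complex.I) ^ j).re) ≤ θ ^ 2 * δ / 8 := by
    have h3 : ∑ j ∈ range M, x j * (u ^ j - (((u : ℂ) + θ * Complex.I) ^ j).re) ≤ ∑ j ∈ range M, 2 * δ₁ := by
      refine sum_le_sum fun j hj => ?_
      rw [mem_range] at hj
      rcases Nat.lt_or_ge j 2 with h8 | h8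
      · interval_cases j
        · simp
          linarith
        · simp
          linarith
      · have h9 := hsm j h8 hj.le
        have h10 : |u ^ j - (((u : ℂ) + θ * Complex.I) ^ j).re| ≤ 2 := by
          have h11 : |u ^ j| ≤ 1 := by
            rw [abs_pow]
            exact pow_le_one₀ (abs_nonneg _) (by linarith)
          have h12 : |(((u : ℂ) + θ * Complex.I) ^ j).re| ≤ 1 := by
            refine (Complex.abs_re_le_norm _).trans ?_
            rw [norm_pow]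
            exact pow_le_one₀ hwn (by linarith)
          have h13 := abs_sub (u ^ j) ((((u : ℂ) + θ * Complex.I) ^ j).re)
          linarith
        refine (le_abs_self _).trans ?_
        rw [abs_mul]
        calc |x j| * |u ^ j - (((u : ℂ) + θ * Complex.I) ^ j).re| ≤ δ₁ * 2 := mul_le_mul h9 h10 (abs_nonneg _) hδ0.le
          _ = 2 * δ₁ := by ring
    rw [sum_const, card_range, nsmul_eq_mul] at h3
    refine h3.trans (le_of_eq ?_)
    rw [hδ₁]
    field_simp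
    ring
  have ht : (‖(u : ℂ) + θ * Complex.I‖ / ρ) ^ M ≤ (1 / 2) ^ M := by
    refine pow_le_pow_left₀ (by positivity) ?_ M
    rw [div_le_div_iff₀ hρ0 (by norm_num)]
    linarith
  have hfin : θ ^ 2 * V P (r * Real.exp u) / (2 * L) ≤ θ ^ 2 * (δ / 2) := by
    have h3 : K * θ ^ 3 ≤ θ ^ 2 * (δ / 8) := by
      calc K * θ ^ 3 = θ ^ 2 * (K * θ) := by ring
        _ ≤ _ := mul_le_mul_of_nonneg_left hθ3 (by positivity)
    have h4 : 0 ≤ θ ^ 2 * δ := by positivity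
    nlinarith
  rw [div_le_iff₀ (by positivity)] at hfin
  have h5 : θ ^ 2 * V P (r * Real.exp u) ≤ θ ^ 2 * (δ * L) := by linarith
  exact le_of_mul_le_mul_left h5 (by positivity)

/-- **Many steps.** -/
theorem chain {b r₀ : ℝ} (hb : 0 < b) (hb1 : b ≤ 1) (hr0 : 0 < r₀) (n : ℕ) : ∀ δ : ℝ, 0 < δ → ∃ η : ℝ, 0 < η ∧
    ∀ (L : ℕ) (P : ℝ[X]), 1 ≤ L → Nice L P → (∀ r : ℝ, r₀ ≤ r → ∀ q ∈ Z P, ‖p r q‖ ≤ 1 / b) → ∀ r : ℝ, r₀ ≤ r →
    ∀ u : ℝ, |u| ≤ n * (b / 16) → r₀ ≤ r * Real.exp u → V P r ≤ η * L → V P (r * Real.exp u) ≤ δ * L := by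
  induction n with
  | zero =>
    intro δ hδ
    refine ⟨δ, hδ, fun L P _ _ _ r _ u hu _ hV => ?_⟩
    have hu0 : u = 0 := by
      rw [Nat.cast_zero, zero_mul] at hu
      exact abs_nonpos_iff.1 hu
    rw [hu0, Real.exp_zero, mul_one]
    exact hV
  | succ n ih =>
    intro δ hδ
    obtain ⟨η₁, hη₁, h1⟩ := step hb hb1 δ hδ
    obtain ⟨η, hη, h2⟩ := ih η₁ hη₁
    refine ⟨η, hη, fun L P hL h hp r hr u hu hru hV => ?_⟩
    have hrp : 0 < r := lt_of_lt_of_le hr0 hr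
    have hn0 : (0 : ℝ) ≤ n := Nat.cast_nonneg n
    have hn : (0 : ℝ) < n + 1 := by linarith
    push_cast at hu
    obtain ⟨s, hs⟩ : ∃ s : ℝ, s = n / (n + 1) := ⟨_, rfl⟩
    have hs0 : 0 ≤ s := by rw [hs]; positivity
    have hs1 : s ≤ 1 := by
      rw [hs, div_le_one hn]
      linarith
    have hsn : s * (n + 1) = n := by
      rw [hs]
      field_simp
    have hrs : r₀ ≤ r * Real.exp (s * u) := by
      rcases le_total 0 u with h3 | h3
      · have h4 : 1 ≤ Real.exp (s * u) := Real.one_le_exp (by positivity)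
        nlinarith
      · refine hru.trans (mul_le_mul_of_nonneg_left (Real.exp_le_exp.2 ?_) hrp.le)
        nlinarith
    have hc : 0 ≤ b / 16 := by positivity
    have h3 := h2 L P hL h hp r hr (s * u) (by
      rw [abs_mul, abs_of_nonneg hs0]
      calc s * |u| ≤ s * ((n + 1) * (b / 16)) := mul_le_mul_of_nonneg_left hu hs0
        _ = s * (n + 1) * (b / 16) := by ring
        _ = n * (b / 16) := by rw [hsn]) hrs hV
    have e1 : r * Real.exp (s * u) * Real.exp ((1 - s) * u) = r * Real.exp u := by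
      rw [mul_assoc, ← Real.exp_add]
      congr 2
      ring
    have h4 := h1 L P hL h (r * Real.exp (s * u)) (by positivity) ((1 - s) * u) (by
      rw [abs_mul, abs_of_nonneg (by linarith)]
      have h5 : (1 - s) * (n + 1) = 1 := by linarith
      calc (1 - s) * |u| ≤ (1 - s) * ((n + 1) * (b / 16)) := mul_le_mul_of_nonneg_left hu (by linarith)
        _ = (1 - s) * (n + 1) * (b / 16) := by ring
        _ = b / 16 := by rw [h5, one_mul]) (hp _ hrs) (by rw [e1]; exact hp _ hru) h3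
    rw [e1] at h4
    exact h4

theorem sum_deriv (s : Multiset ℂ) {r : ℝ} (hr : 0 < r) (hs : ∀ q ∈ s, (r : ℂ) - q ≠ 0) :
    HasDerivAt (fun t : ℝ => (s.map fun q => p t q).sum) ((s.map fun q => p r q * (1 - p r q)).sum / r) r := by
  induction s using Multiset.induction_on with
  | empty => simpa using hasDerivAt_const r (0 : ℂ)
  | cons q s ih =>
    have h1 := ih fun q' hq' => hs q' (Multiset.mem_cons_of_mem hq')
    have h2 := hs q (Multiset.mem_cons_self _ _)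
    have h3 : HasDerivAt (fun t : ℝ => p t q) (p r q * (1 - p r q) / r) r := by
      have h4 : HasDerivAt (fun z : ℂ => z / (z - q)) ((1 * ((r : ℂ) - q) - (r : ℂ) * 1) / ((r : ℂ) - q) ^ 2) (r : ℂ) :=
        (hasDerivAt_id _).div ((hasDerivAt_id _).sub_const q) h2
      have h5 := h4.comp_ofReal
      unfold p
      convert h5 using 1
      have hrc : (r : ℂ) ≠ 0 := by exact_mod_cast hr.ne'
      field_simp
    have h4 := h3.add h1
    simp only [Multiset.map_cons, Multiset.sum_cons]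
    rw [add_div]
    exact h4

theorem mean_deriv {L : ℕ} {P : ℝ[X]} (h : Nice L P) {r : ℝ} (hr : 0 < r) : HasDerivAt (mean P) (V P r / r) r := by
  have h1 := sum_deriv (Z P) hr fun q hq => h.sub_ne_zero hr hq
  have h2 := Complex.reCLM.hasFDerivAt.comp_hasDerivAt r h1
  have h3 : HasDerivAt (fun t : ℝ => ((Z P).map fun q => p t q).sum.re) (V P r / r) r := by
    have e1 : Complex.reCLM (((Z P).map fun q => p r q * (1 - p r q)).sum / r) = V P r / r := by
      rw [Complex.reCLM_apply, Complex.div_ofReal_re]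
      rfl
    rw [e1] at h2
    exact h2
  refine h3.congr_of_eventuallyEq ?_
  filter_upwards [lt_mem_nhds hr] with t ht
  rw [mean_eq h ht, Complex.ofReal_re]

/-- **The variance is linear** between `r₀` and `R`, if the mean grows linearly there. -/
theorem var_lin {b r₀ R g : ℝ} (hb : 0 < b) (hb1 : b ≤ 1) (hr0 : 0 < r₀) (hR : r₀ < R) (hg : 0 < g) : ∃ κ : ℝ, 0 < κ ∧
    ∀ (L : ℕ) (P : ℝ[X]), 1 ≤ L → Nice L P → (∀ r : ℝ, r₀ ≤ r → ∀ q ∈ Z P, ‖p r q‖ ≤ 1 / b) →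
    g * L ≤ mean P R - mean P r₀ → ∀ r : ℝ, r₀ ≤ r → r ≤ R → κ * L ≤ V P r := by
  have hRp : 0 < R := by linarith
  obtain ⟨n, hn⟩ := exists_nat_ge (Real.log (R / r₀) / (b / 16))
  rw [div_le_iff₀ (by positivity)] at hn
  obtain ⟨η, hη, hch⟩ := chain hb hb1 hr0 n (g * r₀ / (2 * R)) (by positivity)
  refine ⟨η, hη, fun L P hL h hp hg2 r hr hrR => ?_⟩
  have hLR : (0 : ℝ) < L := by exact_mod_cast hL
  have hrp : 0 < r := lt_of_lt_of_le hr0 hr
  by_contra hcon
  push Not at hcon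
  obtain ⟨c, hc, hc2⟩ := exists_hasDerivAt_eq_slope (mean P) (fun r => V P r / r) hR
    (Pool.Agent.Helper74.EV4.mean_cont h r₀ R hr0) fun t ht => mean_deriv h (hr0.trans ht.1)
  have hc0 : 0 < c := hr0.trans hc.1
  have h1 : g * r₀ / R * L ≤ V P c := by
    have h2 : g * L / R ≤ (mean P R - mean P r₀) / (R - r₀) := by
      rw [div_le_div_iff₀ hRp (by linarith)]
      have h3 : 0 ≤ g * L := by positivity
      nlinarith
    have h2' : g * L / R ≤ V P c / c := h2.trans (le_of_eq hc2.symm)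
    rw [le_div_iff₀ hc0] at h2'
    refine le_trans ?_ h2'
    have h3 : 0 ≤ g * L / R := by positivity
    calc g * r₀ / R * L = g * L / R * r₀ := by ring
      _ ≤ g * L / R * c := mul_le_mul_of_nonneg_left hc.1.le h3
  have e1 : r * Real.exp (Real.log (c / r)) = c := by
    rw [Real.exp_log (by positivity)]
    field_simp
  have h2 := hch L P hL h hp r hr (Real.log (c / r)) (by
    refine le_trans ?_ hn
    rw [abs_le]
    constructor
    · rw [← Real.log_inv, inv_div]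
      apply Real.log_le_log (by positivity)
      rw [div_le_div_iff₀ hRp hrp]
      nlinarith [hc.1]
    · apply Real.log_le_log (by positivity)
      rw [div_le_div_iff₀ hrp hr0]
      nlinarith [hc.2]) (by rw [e1]; exact hc.1.le) hcon.le
  rw [e1] at h2
  have h3 : g * r₀ / (2 * R) * L < g * r₀ / R * L := by
    have h4 : 0 < g * r₀ / R * L := by positivity
    have e2 : g * r₀ / (2 * R) * L = g * r₀ / R * L / 2 := by
      field_simp
    rw [e2]
    linarith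
  linarith

end Pool.Agent.Helper74.UNI
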