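import Pool.Agent.Helper74.UNI.CoreU
import Pool.Agent.Helper74.UNI.Vstep

/-!
# UNI*, analytic half: the core with a logarithmic number of windows
-/

set_option autoImplicit false

namespace Pool.Agent.Helper74.UNI

open Polynomial EVC Pool.Agent.Helper74.EV4
open Pool.Agent.Helper3.E4 (wt_pos)

/-- The input of the core, without decay. -/
structure HypV (b T r₀ : ℝ) (L : ℕ) (P : ℝ[X]) : Prop extends EVC.Nice L P where
  dist : ∀ ρ ∈ EVC.Z P, ∀ r : ℝ, r₀ ≤ r → b * (r + ‖ρ‖) ≤ ‖(r : ℂ) - ρ‖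
  far : ∀ ρ ∈ EVC.Z P, ‖ρ‖ ≤ T
  up : P.eval 1 ≤ 4 ^ L

theorem norm_p_leV {b T r₀ : ℝ} (hb : 0 < b) (hr0 : 0 < r₀) {L : ℕ} {P : ℝ[X]} (h : HypV b T r₀ L P) (r : ℝ)
    (hrr : r₀ ≤ r) (ρ : ℂ) (hρ : ρ ∈ Z P) : ‖p r ρ‖ ≤ 1 / b := by
  have hr : 0 < r := lt_of_lt_of_le hr0 hrr
  have h1 := h.dist ρ hρ r hrr
  have h2 : b * r ≤ ‖(r : ℂ) - ρ‖ := by
    refine le_trans ?_ h1
    have := norm_nonneg ρ
    nlinarith
  have h3 := lt_of_lt_of_le (by positivity : 0 < b * r) h2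
  unfold p
  rw [norm_div, Complex.norm_real, Real.norm_of_nonneg hr.le, div_le_div_iff₀ h3 hb]
  linarith

/-- **Large mean at a fixed large radius.** -/
theorem mean_largeV {b T r₀ : ℝ} (hb : 0 < b) (hT : 1 ≤ T) (hr1 : r₀ < 1) {ε : ℝ} (hε : 0 < ε) : ∃ r : ℝ, 1 ≤ r ∧
    ∀ (L : ℕ) (P : ℝ[X]), HypV b T r₀ L P → P.natDegree - ε * L ≤ mean P r := by
  refine ⟨max 1 (T / (b * ε)), le_max_left _ _, ?_⟩
  intro L P hP
  obtain ⟨r, hr⟩ : ∃ r, r = max 1 (T / (b * ε)) := ⟨_, rfl⟩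
  rw [← hr]
  have hr1 : 1 ≤ r := by rw [hr]; exact le_max_left _ _
  have hr0 : 0 < r := by linarith
  have hr2 : T / (b * ε) ≤ r := by rw [hr]; exact le_max_right _ _
  have h1 := congrArg Complex.re (mean_eq hP.toNice hr0)
  rw [Complex.ofReal_re, re_sum_map] at h1
  have h2 : ∀ ρ ∈ Z P, 1 - ε ≤ (p r ρ).re := by
    intro ρ hρ
    have hd := hP.dist ρ hρ r (by linarith)
    have hn := norm_nonneg ρ
    have hpos : 0 < ‖(r : ℂ) - ρ‖ := lt_of_lt_of_le (by positivity) hd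
    have hne : (r : ℂ) - ρ ≠ 0 := norm_pos_iff.1 hpos
    have e1 : p r ρ = 1 - (-ρ / ((r : ℂ) - ρ)) := by
      unfold p
      rw [eq_sub_iff_add_eq, ← add_div, ← sub_eq_add_neg, div_self hne]
    have h3 : ‖-ρ / ((r : ℂ) - ρ)‖ ≤ ε := by
      rw [norm_div, norm_neg, div_le_iff₀ hpos]
      have h4 : ε * (b * (r + ‖ρ‖)) ≤ ε * ‖(r : ℂ) - ρ‖ := mul_le_mul_of_nonneg_left hd hε.le
      refine le_trans ?_ h4
      have h5 : T ≤ r * (b * ε) := by rwa [div_le_iff₀ (by positivity)] at hr2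
      have h6 : 0 ≤ ε * (b * ‖ρ‖) := by positivity
      have h7 := hP.far ρ hρ
      nlinarith
    rw [e1, Complex.sub_re, Complex.one_re]
    have h5 := (le_abs_self _).trans ((Complex.abs_re_le_norm _).trans h3)
    linarith
  have h3 := Multiset.sum_map_le_sum_map _ _ h2
  rw [Multiset.map_const', Multiset.sum_replicate, nsmul_eq_mul, h1, card_Z] at h3
  have h4 : 2 * (P.natDegree : ℝ) ≤ L := by exact_mod_cast hP.deg
  have h5 : (0 : ℝ) ≤ P.natDegree := Nat.cast_nonneg _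
  nlinarith

/-- **Saddle point with a polynomial tail.** -/
theorem saddleV {θ₂ C₃ B₂ : ℝ} (hθ₂ : 0 < θ₂) (hC : 0 < C₃) (hB : 0 < B₂) : ∃ d : ℝ, 0 < d ∧ d ≤ θ₂ ∧ d ≤ 1 ∧
    ∃ V₀ : ℝ, 0 < V₀ ∧ ∀ P : ℝ[X], (∀ j, 0 ≤ P.coeff j) → ∀ k : ℕ, 1 ≤ k → ∀ r v Lr : ℝ, 0 < r → V₀ ≤ v → 0 < Lr →
      v ≤ B₂ * Lr → 0 < P.eval r →
      (∀ x : ℝ, |x| ≤ θ₂ → ∃ l : ℂ, ‖l‖ ≤ C₃ * v * |x| ^ 3 ∧ aeval (pt r x) P =
        ((P.eval r : ℝ) : ℂ) * Complex.exp (k * x * Complex.I - v * x ^ 2 / 2 + l)) →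
      (∀ x : ℝ, d ≤ x → x ≤ Real.pi → ‖aeval (pt r x) P‖ ≤ 1 / Lr ^ 2 * P.eval r) →
      P.coeff (k - 1) * P.coeff (k + 1) < P.coeff k ^ 2 := by
  obtain ⟨d, hd⟩ : ∃ d, d = min (min θ₂ 1) (1 / (4 * C₃)) := ⟨_, rfl⟩
  have hd0 : 0 < d := by
    rw [hd]
    exact lt_min (lt_min hθ₂ one_pos) (by positivity)
  have hd1 : d ≤ θ₂ := by rw [hd]; exact (min_le_left _ _).trans (min_le_left _ _)
  have hd2 : d ≤ 1 := by rw [hd]; exact (min_le_left _ _).trans (min_le_right _ _)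
  have hd3 : C₃ * d ≤ 1 / 4 := by
    have h1 : d ≤ 1 / (4 * C₃) := by rw [hd]; exact min_le_right _ _
    rw [le_div_iff₀ (by positivity)] at h1
    linarith
  obtain ⟨v₀, hv₀⟩ : ∃ v₀, v₀ = 960 * C₃ + 1440 * B₂ ^ 2 + 1 / d + 1 := ⟨_, rfl⟩
  have hv₀0 : 0 < v₀ := by rw [hv₀]; positivity
  refine ⟨d, hd0, hd1, hd2, v₀ ^ 2, by positivity, ?_⟩
  intro P hp k hk r v Lr hr hV hLr hvL hP hloc htail
  have hV0 : 0 < v := lt_of_lt_of_le (by positivity) hV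
  have hsq : (√v) ^ 2 = v := Real.sq_sqrt hV0.le
  have hv : v₀ ≤ √v := Real.le_sqrt_of_sq_le hV
  refine Helper92.EV.saddle_core P hp k hk r (√v) d C₃ (3 / Lr ^ 2) (1 / v) hr hP hd0 hd2 hC.le hd3 (by positivity)
    (by positivity) ?_ (by linarith) ?_ ?_
  · have h1 : 480 * (3 / Lr ^ 2) / (1 / v) ^ 2 ≤ 1440 * B₂ ^ 2 := by
      have e1 : 480 * (3 / Lr ^ 2) / (1 / v) ^ 2 = 1440 * (v / Lr) ^ 2 := by
        field_simp
        norm_num
      rw [e1]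
      have h2 : v / Lr ≤ B₂ := by
        rw [div_le_iff₀ hLr]
        exact hvL
      have h3 : 0 ≤ v / Lr := by positivity
      have h4 := pow_le_pow_left₀ h3 h2 2
      linarith
    have h2 : 0 < 1 / d := by positivity
    have h3 : 0 ≤ 1440 * B₂ ^ 2 := by positivity
    constructor
    · linarith
    · linarith
  · intro x hx
    rw [hsq]
    obtain ⟨l, hl1, hl2⟩ := hloc x (by rw [abs_of_nonneg hx.1]; exact hx.2.trans hd1)
    refine ⟨l, ?_, ?_⟩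
    · rwa [abs_of_nonneg hx.1] at hl1
    · unfold pt at hl2
      rw [hl2]
      push_cast
      rfl
  · intro x hx
    rw [hsq]
    have h1 := htail x hx.1 hx.2
    unfold pt at h1
    refine h1.trans (mul_le_mul_of_nonneg_right ?_ hP.le)
    have e1 : 1 / v * v = 1 := by field_simp
    rw [e1]
    have h2 : 1 ≤ 3 * Real.exp (-1) := by
      rw [Real.exp_neg, ← div_eq_mul_inv, le_div_iff₀ (Real.exp_pos _)]
      have := Real.exp_one_lt_d9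
      linarith
    calc 1 / Lr ^ 2 = 1 / Lr ^ 2 * 1 := by ring
      _ ≤ 1 / Lr ^ 2 * (3 * Real.exp (-1)) := mul_le_mul_of_nonneg_left h2 (by positivity)
      _ = 3 / Lr ^ 2 * Real.exp (-1) := by ring

/-- **The bulk**: radii between `r₀` and `R`. -/
theorem bulkV {b T r₀ R κ : ℝ} (hb : 0 < b) (hb1 : b ≤ 1) (hr0 : 0 < r₀) (hR : 1 ≤ R) (hκ : 0 < κ) :
    ∃ C : ℝ, 0 < C ∧ ∃ L₀ : ℕ, ∀ L : ℕ, L₀ ≤ L → ∀ P : ℝ[X], HypV b T r₀ L P → ∀ M : ℝ, C * Real.log L ≤ M →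
      (∀ r θ : ℝ, r₀ ≤ r → |θ| ≤ Real.pi →
        ‖aeval (EVC.pt r θ) P‖ ≤ Real.exp (-(M * (wt r * (1 - Real.cos θ)))) * P.eval r) →
      (∀ r : ℝ, r₀ ≤ r → r ≤ R → κ * L ≤ V P r) →
      ∀ r : ℝ, r₀ ≤ r → r ≤ R → ∀ k : ℕ, 1 ≤ k → mean P r = k →
      P.coeff (k - 1) * P.coeff (k + 1) < P.coeff k ^ 2 := by
  obtain ⟨θ₂, hθ₂, K, hK1, hlf⟩ := local_form (B := 1 / b) (by
    rw [le_div_iff₀ hb]
    linarith)
  obtain ⟨B2, hB2⟩ : ∃ B2, B2 = 1 / b * (1 + 1 / b) := ⟨_, rfl⟩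
  have hB20 : 0 < B2 := by rw [hB2]; positivity
  obtain ⟨w, hw⟩ : ∃ w, w = r₀ / (1 + R) ^ 2 := ⟨_, rfl⟩
  have hw0 : 0 < w := by rw [hw]; positivity
  obtain ⟨d, hd0, hd1, hd2, V₀, hV₀, hsad⟩ := saddleV hθ₂ (by positivity : 0 < K * (B2 / κ)) hB20
  have hcosd : 0 < 1 - Real.cos d := by
    have h1 := Helper92.EV.one_sub_cos_lower hd0.le (by linarith [Real.pi_gt_three])
    have h2 : 0 < d ^ 2 / 5 := by positivity
    linarith
  obtain ⟨c₁, hc₁⟩ : ∃ c₁, c₁ = w * (1 - Real.cos d) := ⟨_, rfl⟩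
  have hc0 : 0 < c₁ := by rw [hc₁]; positivity
  obtain ⟨L₀, hL₀⟩ := exists_nat_ge (V₀ / κ)
  refine ⟨2 / c₁, by positivity, max L₀ 1, fun L hL P h M hM hdec hVlin r hra hrb k hk hmean => ?_⟩
  have hLR : (L₀ : ℝ) ≤ L := by exact_mod_cast (le_max_left _ _).trans hL
  have hL1 : (1 : ℝ) ≤ L := by exact_mod_cast (le_max_right _ _).trans hL
  have hL0 : (0 : ℝ) < L := by linarith
  have hr : 0 < r := lt_of_lt_of_le hr0 hra
  have hPr := h.toNice.eval_pos hr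
  have hp := norm_p_leV hb hr0 h r hra
  have hwr : w ≤ wt r := by
    rw [hw]
    unfold wt
    have h7 : (1 + r) ^ 2 ≤ (1 + R) ^ 2 := pow_le_pow_left₀ (by linarith) (by linarith) 2
    exact div_le_div₀ hr.le hra (by positivity) h7
  have hV := hVlin r hra hrb
  have hW : W P r ≤ B2 * L := by rw [hB2]; exact W_le' hb h.toNice hp
  have hWV : W P r ≤ B2 / κ * V P r := by
    refine hW.trans ?_
    calc B2 * L = B2 / κ * (κ * L) := by field_simp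
      _ ≤ _ := mul_le_mul_of_nonneg_left hV (by positivity)
  have hVL : V P r ≤ B2 * L := (V_le_W P r).trans hW
  have hV0 : V₀ ≤ V P r := by
    have h8 := hL₀.trans hLR
    rw [div_le_iff₀ (by positivity)] at h8
    linarith
  refine hsad P h.nn k hk r (V P r) L hr hV0 hL0 hVL hPr ?_ ?_
  · intro x hx
    obtain ⟨w', hw1, hw2⟩ := hlf L P h.toNice r hr hp x hx
    refine ⟨w', hw1.trans ?_, ?_⟩
    · have h2 : 0 ≤ |x| ^ 3 := by positivity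
      calc K * W P r * |x| ^ 3 ≤ K * (B2 / κ * V P r) * |x| ^ 3 := by gcongr
        _ = K * (B2 / κ) * V P r * |x| ^ 3 := by ring
    · rw [hw2, hmean]
      congr 2
      push_cast
      ring
  · intro x hx1 hx2
    have hx0 : 0 ≤ x := hd0.le.trans hx1
    refine (hdec r x hra (by rw [abs_of_nonneg hx0]; exact hx2)).trans ?_
    refine mul_le_mul_of_nonneg_right ?_ hPr.le
    have hcos : 1 - Real.cos d ≤ 1 - Real.cos x := by
      have := Real.cos_le_cos_of_nonneg_of_le_pi hd0.le hx2 hx1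
      linarith
    have hlog : 0 ≤ Real.log L := Real.log_nonneg hL1
    have hM0 : 0 ≤ M := le_trans (by positivity) hM
    have h1 : 2 * Real.log L ≤ M * (wt r * (1 - Real.cos x)) := by
      have h2 : c₁ ≤ wt r * (1 - Real.cos x) := by
        rw [hc₁]
        exact mul_le_mul hwr hcos hcosd.le (le_trans hw0.le hwr)
      calc 2 * Real.log L = 2 / c₁ * Real.log L * c₁ := by field_simp
        _ ≤ M * (wt r * (1 - Real.cos x)) := mul_le_mul hM h2 hc0.le hM0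
    have h2 : Real.exp (-(M * (wt r * (1 - Real.cos x)))) ≤ Real.exp (-(2 * Real.log L)) :=
      Real.exp_le_exp.2 (neg_le_neg h1)
    refine h2.trans (le_of_eq ?_)
    rw [Real.exp_neg, mul_comm, Real.exp_mul, Real.exp_log hL0, one_div]
    norm_cast

/-- **The core with a logarithmic number of windows.** -/
theorem coreV (b T r₀ ε g τ : ℝ) (hb : 0 < b) (hb1 : b ≤ 1) (hT : 1 ≤ T) (hr0 : 0 < r₀) (hr1 : r₀ < 1) (hg : 0 < g)
    (hτ : 0 < τ) (hεg : ε ≤ g / 2) (hε : Real.log 4 ≤ ε * Real.log (1 / r₀)) :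
    ∃ C : ℝ, 0 < C ∧ ∃ L₀ : ℕ, ∀ L : ℕ, L₀ ≤ L → ∀ P : ℝ[X], HypV b T r₀ L P → g * L ≤ P.natDegree →
      (∀ k : ℕ, 1 ≤ k → (P.natDegree : ℝ) ≤ k + τ * L → P.coeff (k - 1) * P.coeff (k + 1) ≤ P.coeff k ^ 2) →
      ∀ M : ℝ, C * Real.log L ≤ M →
      (∀ r θ : ℝ, r₀ ≤ r → |θ| ≤ Real.pi →
        ‖aeval (EVC.pt r θ) P‖ ≤ Real.exp (-(M * (wt r * (1 - Real.cos θ)))) * P.eval r) →
      ∀ k : ℕ, 1 ≤ k → ε * L ≤ k → P.coeff (k - 1) * P.coeff (k + 1) ≤ P.coeff k ^ 2 := by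
  have hlog : 0 < Real.log (1 / r₀) := Real.log_pos (by rw [lt_div_iff₀ hr0]; linarith)
  obtain ⟨R, hR1, hlarge⟩ := mean_largeV hb hT hr1 (lt_min hτ (by positivity : 0 < g / 4))
  obtain ⟨κ, hκ, hvar⟩ := var_lin hb hb1 hr0 (lt_of_lt_of_le hr1 hR1) (by positivity : 0 < g / 4)
  obtain ⟨C, hC, L₀, hbulk⟩ := bulkV (T := T) hb hb1 hr0 hR1 hκ
  refine ⟨C, hC, max L₀ 1, fun L hL P hP hdeg htop M hM hdec k hk hkε => ?_⟩
  have hLa : L₀ ≤ L := (le_max_left _ _).trans hL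
  have hLc : 1 ≤ L := (le_max_right _ _).trans hL
  have hLn : (0 : ℝ) ≤ L := Nat.cast_nonneg L
  by_cases hk2 : (P.natDegree : ℝ) ≤ k + τ * L
  · exact htop k hk hk2
  push Not at hk2
  have h1 := mean_log_le hP.toNice hP.up hr0
  have h2 := hlarge L P hP
  have hm1 : min τ (g / 4) * L ≤ τ * L := mul_le_mul_of_nonneg_right (min_le_left _ _) hLn
  have hm2 : min τ (g / 4) * L ≤ g / 4 * L := mul_le_mul_of_nonneg_right (min_le_right _ _) hLn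
  have h3 : mean P r₀ ≤ ε * L := by
    refine le_of_mul_le_mul_right (h1.trans ?_) hlog
    calc (L : ℝ) * Real.log 4 ≤ L * (ε * Real.log (1 / r₀)) := mul_le_mul_of_nonneg_left hε hLn
      _ = ε * L * Real.log (1 / r₀) := by ring
  have h3' : ε * L ≤ g / 2 * L := mul_le_mul_of_nonneg_right hεg hLn
  have hV := hvar L P hLc hP.toNice (fun r hr q hq => norm_p_leV hb hr0 hP r hr q hq) (by linarith)
  have h4 : mean P r₀ ≤ k := h3.trans hkε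
  have h5 : (k : ℝ) ≤ mean P R := by linarith
  obtain ⟨r, hr, hrk⟩ := intermediate_value_Icc (hr1.le.trans hR1) (mean_cont hP.toNice r₀ R hr0) ⟨h4, h5⟩
  exact (hbulk L hLa P hP M hM hdec hV r hr.1 hr.2 k hk hrk).le

end Pool.Agent.Helper74.UNI
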