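import Pool.Agent.Helper3.EVC.E07
import Pool.Agent.Helper3.EVC.E13a

/-!
# UNI*: the expansion of `log |P(r e^w)|` at one radius
-/

set_option autoImplicit false

namespace Pool.Agent.Helper74.UNI

open Polynomial EVC

/-- the logarithm of `1 + (e^w - 1) q` -/
noncomputable def fq (q w : ℂ) : ℂ := Complex.log (1 + (Complex.exp w - 1) * q)

theorem small_arg {B : ℝ} (hB : 1 ≤ B) {q w : ℂ} (hq : ‖q‖ ≤ B) (hw : ‖w‖ ≤ 1 / (4 * B)) :
    ‖(Complex.exp w - 1) * q‖ ≤ 1 / 2 := by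
  have h1 : ‖w‖ ≤ 1 := by
    refine hw.trans ?_
    rw [div_le_one (by positivity)]
    linarith
  have h2 := Complex.norm_exp_sub_one_le h1
  rw [norm_mul]
  calc ‖Complex.exp w - 1‖ * ‖q‖ ≤ (2 * ‖w‖) * B := mul_le_mul h2 hq (norm_nonneg _) (by positivity)
    _ ≤ (2 * (1 / (4 * B))) * B := by gcongr
    _ = 1 / 2 := by field_simp; norm_num

theorem fq_norm {B : ℝ} (hB : 1 ≤ B) {q w : ℂ} (hq : ‖q‖ ≤ B) (hw : ‖w‖ ≤ 1 / (4 * B)) : ‖fq q w‖ ≤ 1 := by
  have h1 := small_arg hB hq hw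
  have h2 := Complex.norm_log_one_add_half_le_self h1
  unfold fq
  linarith

theorem fq_exp {B : ℝ} (hB : 1 ≤ B) {q w : ℂ} (hq : ‖q‖ ≤ B) (hw : ‖w‖ ≤ 1 / (4 * B)) :
    Complex.exp (fq q w) = 1 + (Complex.exp w - 1) * q := by
  have h1 := small_arg hB hq hw
  unfold fq
  refine Complex.exp_log fun h => ?_
  have h2 : (Complex.exp w - 1) * q = -1 := by linear_combination h
  rw [h2, norm_neg, norm_one] at h1
  norm_num at h1

theorem fq_diff {B : ℝ} (hB : 1 ≤ B) {q : ℂ} (hq : ‖q‖ ≤ B) :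
    DifferentiableOn ℂ (fq q) (Metric.closedBall 0 (1 / (4 * B))) := by
  intro w hw
  rw [Metric.mem_closedBall, dist_zero_right] at hw
  have h1 := small_arg hB hq hw
  refine DifferentiableAt.differentiableWithinAt ?_
  unfold fq
  refine DifferentiableAt.clog (by fun_prop) ?_
  exact Complex.mem_slitPlane_of_norm_lt_one (lt_of_le_of_lt h1 (by norm_num))

/-- **The expansion for one root.** -/
theorem fq_series {B : ℝ} (hB : 1 ≤ B) {q : ℂ} (hq : ‖q‖ ≤ B) : ∃ a : ℕ → ℂ, (∀ m, ‖a m‖ ≤ 1 / (1 / (4 * B)) ^ m) ∧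
    ∀ w : ℂ, ‖w‖ < 1 / (4 * B) → HasSum (fun m => a m * w ^ m) (fq q w) := by
  obtain ⟨R, hR⟩ : ∃ R : NNReal, (R : ℝ) = 1 / (4 * B) := ⟨⟨1 / (4 * B), by positivity⟩, rfl⟩
  have hR0 : (0 : ℝ) < R := by rw [hR]; positivity
  have hd := fq_diff hB hq
  rw [← hR] at hd
  have hs := hd.hasFPowerSeriesOnBall (by exact_mod_cast hR0)
  refine ⟨fun m => (cauchyPowerSeries (fq q) 0 R).coeff m, fun m => ?_, fun w hw => ?_⟩
  · rw [← FormalMultilinearSeries.norm_apply_eq_norm_coef]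
    refine (norm_cauchyPowerSeries_le _ _ _ _).trans ?_
    have h1 : ‖∫ θ : ℝ in (0)..2 * Real.pi, ‖fq q (circleMap 0 R θ)‖‖ ≤ 1 * |2 * Real.pi - 0| := by
      refine intervalIntegral.norm_integral_le_of_norm_le_const fun θ _ => ?_
      rw [norm_norm]
      refine fq_norm hB hq ?_
      rw [norm_circleMap_zero, abs_of_pos hR0, hR]
    have h2 : ∫ θ : ℝ in (0)..2 * Real.pi, ‖fq q (circleMap 0 R θ)‖ ≤ 2 * Real.pi := by
      refine (le_abs_self _).trans ?_
      rw [Real.norm_eq_abs, sub_zero, one_mul, abs_of_pos Real.two_pi_pos] at h1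
      exact h1
    have h3 : (2 * Real.pi)⁻¹ * ∫ θ : ℝ in (0)..2 * Real.pi, ‖fq q (circleMap 0 R θ)‖ ≤ 1 := by
      rw [inv_mul_le_iff₀ Real.two_pi_pos, mul_one]
      exact h2
    rw [abs_of_pos hR0]
    refine (mul_le_mul_of_nonneg_right h3 (by positivity)).trans (le_of_eq ?_)
    rw [one_mul, hR, inv_pow, ← one_div]
  · have hy : w ∈ Metric.eball (0 : ℂ) R := by
      rw [Metric.mem_eball, edist_dist, dist_zero_right]
      rw [← ENNReal.ofReal_coe_nnreal]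
      exact (ENNReal.ofReal_lt_ofReal_iff hR0).2 (by rw [hR]; exact hw)
    have h1 := hs.hasSum hy
    rw [zero_add] at h1
    refine h1.congr_fun ?_ |> fun h => h
    intro m
    rw [FormalMultilinearSeries.apply_eq_pow_smul_coeff, smul_eq_mul, mul_comm]

/-- the product formula at a general point -/
theorem prod_formula' {L : ℕ} {P : ℝ[X]} (h : Nice L P) {r : ℝ} (w : ℂ) (hr : 0 < r) :
    aeval ((r : ℂ) * Complex.exp w) P = ((P.eval r : ℝ) : ℂ) *
      ((Z P).map fun ρ => 1 + (Complex.exp w - 1) * p r ρ).prod := by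
  rw [aeval_eq_eval_map, ← eval_map_ofReal, (IsAlgClosed.splits _).eval_eq_prod_roots,
    (IsAlgClosed.splits (P.map (algebraMap ℝ ℂ))).eval_eq_prod_roots (r : ℂ), mul_assoc]
  congr 1
  rw [Z, ← Multiset.prod_map_mul]
  congr 1
  refine Multiset.map_congr rfl fun ρ hρ => ?_
  have h1 : (r : ℂ) - ρ ≠ 0 := h.sub_ne_zero hr hρ
  unfold p
  field_simp
  ring

/-- the sum of the logarithms -/
noncomputable def Fs (s : Multiset ℂ) (w : ℂ) : ℂ := (s.map fun q => fq q w).sum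

/-- **The expansion for a multiset.** -/
theorem Fs_series {B : ℝ} (hB : 1 ≤ B) (s : Multiset ℂ) (hs : ∀ q ∈ s, ‖q‖ ≤ B) : ∃ a : ℕ → ℂ,
    (∀ m, ‖a m‖ ≤ Multiset.card s * (1 / (1 / (4 * B)) ^ m)) ∧
    ∀ w : ℂ, ‖w‖ < 1 / (4 * B) → HasSum (fun m => a m * w ^ m) (Fs s w) := by
  induction s using Multiset.induction_on with
  | empty =>
    refine ⟨fun _ => 0, fun m => by simp, fun w _ => ?_⟩
    simpa [Fs] using hasSum_zero
  | cons q s ih =>
    obtain ⟨a, ha1, ha2⟩ := ih fun q' hq' => hs q' (Multiset.mem_cons_of_mem hq')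
    obtain ⟨b, hb1, hb2⟩ := fq_series hB (hs q (Multiset.mem_cons_self _ _))
    refine ⟨fun m => b m + a m, fun m => ?_, fun w hw => ?_⟩
    · refine (norm_add_le _ _).trans ?_
      rw [Multiset.card_cons]
      push_cast
      have h1 := hb1 m
      have h2 := ha1 m
      linarith
    · have h1 := (hb2 w hw).add (ha2 w hw)
      unfold Fs at h1 ⊢
      rw [Multiset.map_cons, Multiset.sum_cons]
      simpa only [add_mul] using h1

theorem Fs_exp {B : ℝ} (hB : 1 ≤ B) (s : Multiset ℂ) (hs : ∀ q ∈ s, ‖q‖ ≤ B) {w : ℂ} (hw : ‖w‖ ≤ 1 / (4 * B)) :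
    Complex.exp (Fs s w) = (s.map fun q => 1 + (Complex.exp w - 1) * q).prod := by
  induction s using Multiset.induction_on with
  | empty => simp [Fs]
  | cons q s ih =>
    have h1 := ih fun q' hq' => hs q' (Multiset.mem_cons_of_mem hq')
    unfold Fs at h1 ⊢
    rw [Multiset.map_cons, Multiset.sum_cons, Complex.exp_add, h1, fq_exp hB (hs q (Multiset.mem_cons_self _ _)) hw,
      Multiset.map_cons, Multiset.prod_cons]

/-- **The expansion at one radius.** -/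
theorem expand {B : ℝ} (hB : 1 ≤ B) {L : ℕ} (hL : 1 ≤ L) {P : ℝ[X]} (h : Nice L P) {r : ℝ} (hr : 0 < r)
    (hp : ∀ ρ ∈ Z P, ‖p r ρ‖ ≤ B) : ∃ x : ℕ → ℝ, (∀ m, |x m| ≤ 1 / (1 / (4 * B)) ^ m) ∧
    ∀ w : ℂ, ‖w‖ < 1 / (4 * B) → ∃ S : ℝ, HasSum (fun m => x m * (w ^ m).re) S ∧
      ‖aeval ((r : ℂ) * Complex.exp w) P‖ * ‖aeval ((r : ℂ) * Complex.exp (starRingEnd ℂ w)) P‖ =
        P.eval r ^ 2 * Real.exp (2 * L * S) := by
  have hLR : (1 : ℝ) ≤ L := by exact_mod_cast hL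
  have hL0 : (0 : ℝ) < L := by linarith
  have hPr := h.eval_pos hr
  obtain ⟨s, hs⟩ : ∃ s, s = (Z P).map (p r) := ⟨_, rfl⟩
  have hsB : ∀ q ∈ s, ‖q‖ ≤ B := by
    intro q hq
    rw [hs] at hq
    obtain ⟨ρ, hρ, rfl⟩ := Multiset.mem_map.1 hq
    exact hp ρ hρ
  obtain ⟨a, ha1, ha2⟩ := Fs_series hB s hsB
  have hcard : (Multiset.card s : ℝ) ≤ L := by
    have h1 := card_Z_le h
    have h2 : (0 : ℝ) ≤ Multiset.card (Z P) := Nat.cast_nonneg _
    rw [hs, Multiset.card_map]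
    linarith
  have hnorm : ∀ w : ℂ, ‖w‖ < 1 / (4 * B) → ‖aeval ((r : ℂ) * Complex.exp w) P‖ = P.eval r * Real.exp (Fs s w).re := by
    intro w hw
    have h1 := Fs_exp hB s hsB hw.le
    rw [prod_formula' h w hr, norm_mul, Complex.norm_real, Real.norm_of_nonneg hPr.le, ← Complex.norm_exp, h1, hs,
      Multiset.map_map]
    rfl
  refine ⟨fun m => (a m).re / L, fun m => ?_, fun w hw => ⟨((Fs s w).re + (Fs s (starRingEnd ℂ w)).re) / (2 * L), ?_, ?_⟩⟩
  · rw [abs_div, abs_of_pos hL0, div_le_iff₀ hL0]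
    refine (Complex.abs_re_le_norm _).trans ((ha1 m).trans ?_)
    rw [mul_comm]
    exact mul_le_mul_of_nonneg_left hcard (by positivity)
  · have hw' : ‖starRingEnd ℂ w‖ < 1 / (4 * B) := by rw [RCLike.norm_conj]; exact hw
    have h1 := Complex.hasSum_re (ha2 w hw)
    have h2 := Complex.hasSum_re (ha2 _ hw')
    have h3 := (h1.add h2).div_const (2 * L)
    refine h3.congr_fun ?_ |> fun h => h
    intro m
    have e1 : ((a m * w ^ m).re + (a m * (starRingEnd ℂ w) ^ m).re) = 2 * ((a m).re * (w ^ m).re) := by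
      rw [← map_pow, Complex.mul_re, Complex.mul_re, Complex.conj_re, Complex.conj_im]
      ring
    rw [e1]
    field_simp
  · have hw' : ‖starRingEnd ℂ w‖ < 1 / (4 * B) := by rw [RCLike.norm_conj]; exact hw
    rw [hnorm w hw, hnorm _ hw']
    have e1 : 2 * (L : ℝ) * (((Fs s w).re + (Fs s (starRingEnd ℂ w)).re) / (2 * L)) =
        (Fs s w).re + (Fs s (starRingEnd ℂ w)).re := by field_simp
    rw [e1, Real.exp_add]
    ring

end Pool.Agent.Helper74.UNI
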