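import Pool.Agent.Helper74.UNI.Zeros

/-!
# UNI: the final theorem from the zero-free neighbourhood and the windows
-/

set_option autoImplicit false

namespace Pool.Agent.Helper74.UNI

open Polynomial Matrix Pool.Agent.Helper76.Conway Pool.Agent.Helper76.Conway.Top Pool.Agent.Helper99.ZB
  Pool.Agent.Helper57.EV Pool.Agent.Helper57.EV2 Pool.Agent.Helper57.EV4 Pool.Agent.Helper74.EV4

/-- log-concavity of `half p` from an index on gives log-concavity of every second coefficient of `p` from an index on -/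
theorem lc_from {p : ℤ[X]} (hpar : ∀ j k, p.coeff j ≠ 0 → p.coeff k ≠ 0 → j % 2 = k % 2) (h0 : p ≠ 0) {K : ℝ}
    (hlc : ∀ k : ℕ, 1 ≤ k → K ≤ k → (half p).coeff (k - 1) * (half p).coeff (k + 1) ≤ (half p).coeff k ^ 2) (k : ℕ)
    (hk : (p.natTrailingDegree : ℝ) + 2 * K ≤ k + 2) : p.coeff k * p.coeff (k + 4) ≤ p.coeff (k + 2) ^ 2 := by
  obtain ⟨d, hd⟩ : ∃ d, d = p.natTrailingDegree := ⟨_, rfl⟩
  by_cases h1 : k < d
  · rw [coeff_eq_zero_of_lt_natTrailingDegree (hd ▸ h1), zero_mul]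
    exact sq_nonneg _
  · by_cases h2 : (k + d) % 2 = 1
    · rw [par_trailing hpar h0 k (hd ▸ h2), zero_mul]
      exact sq_nonneg _
    · obtain ⟨j, hj⟩ : ∃ j, k = d + 2 * j := ⟨(k - d) / 2, by omega⟩
      have h3 := hlc (j + 1) (by omega) (by
        rw [← hd] at hk
        have e : (k : ℝ) = d + 2 * j := by exact_mod_cast hj
        push_cast
        linarith)
      rw [half_coeff, half_coeff, half_coeff, ← hd] at h3
      have e1 : d + 2 * (j + 1 - 1) = k := by omega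
      have e2 : d + 2 * (j + 1 + 1) = k + 4 := by omega
      have e3 : d + 2 * (j + 1) = k + 2 := by omega
      rw [e1, e2, e3] at h3
      exact_mod_cast h3

variable {G : ℕ → Type} [∀ n, Group (G n)] {sg : ∀ n, ℕ → G n} {N : ∀ n, G n → ℤ[X]}

/-- **Long positive braids with any number of strands.** For all `K` and `ε > 0` there is `m₀` such that the inequality holds at all indices
at least `ord + ε L` for all positive words of length `L ≥ m₀` with `M ≥ L / K` windows, for any number of strands. -/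
theorem uni (hNZ : NZ) (h : Mk G sg N) (K : ℕ) {ε : ℝ} (hε : 0 < ε) : ∃ m₀ : ℕ, ∀ (n : ℕ) (w : List ℕ), (∀ a ∈ w, a < n) →
    (∀ a < n, a ∈ w) → m₀ ≤ w.length → ∀ M : ℕ, w.length ≤ K * M →
    (∀ z : ℂ, ‖aeval z (N n (V (sg n) w))‖ ≤
      Real.exp (-(M * (wt (‖z‖ ^ 2) * (1 - Real.cos (2 * z.arg)) / 4))) * aeval ‖z‖ (N n (V (sg n) w))) →
    ∀ k : ℕ, ((N n (V (sg n) w)).natTrailingDegree : ℝ) + ε * w.length ≤ k + 2 →
      (N n (V (sg n) w)).coeff k * (N n (V (sg n) w)).coeff (k + 4) ≤ (N n (V (sg n) w)).coeff (k + 2) ^ 2 := by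
  have hK0 : (0 : ℝ) ≤ K := Nat.cast_nonneg K
  obtain ⟨κ, hκ⟩ : ∃ κ : ℝ, κ = 1 / (4 * (K + 1)) := ⟨_, rfl⟩
  have hκ0 : 0 < κ := by rw [hκ]; positivity
  have hκ1 : κ ≤ 1 := by
    rw [hκ, div_le_one (by positivity)]
    linarith
  have hl4 : 0 < Real.log 4 := Real.log_pos (by norm_num)
  obtain ⟨r₀, hr₀⟩ : ∃ r₀ : ℝ, r₀ = Real.exp (-(2 * Real.log 4 / ε)) := ⟨_, rfl⟩
  have hr0 : 0 < r₀ := by rw [hr₀]; exact Real.exp_pos _
  have hr1 : r₀ < 1 := by
    rw [hr₀, Real.exp_lt_one_iff]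
    have : 0 < 2 * Real.log 4 / ε := by positivity
    linarith
  have hA : AdmU (bU r₀) 8 κ r₀ := ⟨bU_pos hr0, bU_le r₀, by norm_num, hκ0, hκ1, hr0, hr1⟩
  have hlog : Real.log 4 ≤ ε / 2 * Real.log (1 / r₀) := by
    rw [one_div, Real.log_inv, hr₀, Real.log_exp, neg_neg]
    have : ε / 2 * (2 * Real.log 4 / ε) = Real.log 4 := by
      field_simp
    rw [this]
  obtain ⟨L₀, hL₀⟩ := coreU (bU r₀) 8 κ r₀ (ε / 2) hA hlog
  refine ⟨max L₀ 1, fun n w hw hf hm M hM hwin k hk => ?_⟩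
  have hm0 : L₀ ≤ w.length := (le_max_left _ _).trans hm
  have hm1 : 1 ≤ w.length := (le_max_right _ _).trans hm
  have hne : w ≠ [] := by
    rintro rfl
    simp at hm1
  obtain ⟨p, hp⟩ : ∃ p, p = N n (V (sg n) w) := ⟨_, rfl⟩
  obtain ⟨h0, hpar', -⟩ := word h hw hf hp
  have hpar : ∀ j k, p.coeff j ≠ 0 → p.coeff k ≠ 0 → j % 2 = k % 2 := by
    intro j k hj hk
    have e1 : ¬ (j + (w.length - n)) % 2 = 1 := fun e => hj (hpar' j e)
    have e2 : ¬ (k + (w.length - n)) % 2 = 1 := fun e => hk (hpar' k e)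
    omega
  have hnn : ∀ j, 0 ≤ p.coeff j := by
    intro j
    have h1 := h.pos n w hw j
    rw [coeff_zero, ← hp] at h1
    exact h1
  rw [← hp] at hwin hk ⊢
  have hdec : ∀ z : ℂ, z ≠ 0 → ‖aeval z p‖ ≤
      Real.exp (-(κ * w.length * wt (‖z‖ ^ 2) * (1 - Real.cos (2 * z.arg)))) * aeval ‖z‖ p := by
    intro z _
    refine (hwin z).trans (mul_le_mul_of_nonneg_right (Real.exp_le_exp.2 (neg_le_neg ?_)) ?_)
    · have h6 : 0 ≤ wt (‖z‖ ^ 2) * (1 - Real.cos (2 * z.arg)) := by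
        unfold wt
        have := Real.cos_le_one (2 * z.arg)
        exact mul_nonneg (by positivity) (by linarith)
      have h7 : κ * w.length ≤ M / 4 := by
        have h8 : (w.length : ℝ) ≤ K * M := by exact_mod_cast hM
        rw [hκ, div_mul_eq_mul_div, one_mul, div_le_div_iff₀ (by positivity) (by norm_num)]
        nlinarith [(Nat.cast_nonneg M : (0 : ℝ) ≤ M)]
      nlinarith [mul_le_mul_of_nonneg_right h7 h6]
    · rw [aeval_eq_sum_range]
      refine Finset.sum_nonneg fun j _ => ?_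
      rw [zsmul_eq_mul]
      exact mul_nonneg (by exact_mod_cast hnn j) (by positivity)
  have hhyp : HypU (bU r₀) 8 κ r₀ w.length (half p) := by
    rw [hp]
    refine hypU_of hNZ h hw hf hne hr0 fun r θ hr hθ => ?_
    rw [← hp]
    exact dec_half hpar h0 hdec r θ (lt_of_lt_of_le hr0 hr) hθ
  exact lc_from hpar h0 (fun j hj1 hj2 => hL₀ w.length hm0 (half p) hhyp j hj1 hj2) k (by linarith)

end Pool.Agent.Helper74.UNI
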