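import Pool.Agent.Helper74.UNI.Final
import Pool.Agent.Helper61.UNI.Main

/-!
# UNI: the zero-free neighbourhood plugged in
-/

set_option autoImplicit false

namespace Pool.Agent.Helper74.UNI

open Polynomial Pool.Agent.Helper76.Conway Pool.Agent.Helper76.Conway.Top Pool.Agent.Helper99.ZB
  Pool.Agent.Helper57.EV Pool.Agent.Helper57.EV2 Pool.Agent.Helper57.EV4 Pool.Agent.Helper74.EV4

theorem nz : NZ := fun _ h0 h1 _ hs hd _ _ hw hf _ => Pool.Agent.Helper61.UNI.det_ne_zero_near h0 h1 hs hd hw hf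

variable {G : ℕ → Type} [∀ n, Group (G n)] {sg : ∀ n, ℕ → G n} {N : ∀ n, G n → ℤ[X]}

/-- **Long positive braids with any number of strands**, from the windows. -/
theorem uni' (h : Mk G sg N) (K : ℕ) {ε : ℝ} (hε : 0 < ε) : ∃ m₀ : ℕ, ∀ (n : ℕ) (w : List ℕ), (∀ a ∈ w, a < n) →
    (∀ a < n, a ∈ w) → m₀ ≤ w.length → ∀ M : ℕ, w.length ≤ K * M →
    (∀ z : ℂ, ‖aeval z (N n (V (sg n) w))‖ ≤
      Real.exp (-(M * (wt (‖z‖ ^ 2) * (1 - Real.cos (2 * z.arg)) / 4))) * aeval ‖z‖ (N n (V (sg n) w))) →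
    ∀ k : ℕ, ((N n (V (sg n) w)).natTrailingDegree : ℝ) + ε * w.length ≤ k + 2 →
      (N n (V (sg n) w)).coeff k * (N n (V (sg n) w)).coeff (k + 4) ≤ (N n (V (sg n) w)).coeff (k + 2) ^ 2 :=
  uni nz h K hε

end Pool.Agent.Helper74.UNI
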