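import Pool.Agent.Helper74.UNI.CoreV
import Pool.Agent.Helper74.UNI.Inst

/-!
# UNI*: the final theorem with a logarithmic number of windows
-/

set_option autoImplicit false

namespace Pool.Agent.Helper74.UNI

open Polynomial Matrix Pool.Agent.Helper76.Conway Pool.Agent.Helper76.Conway.Top Pool.Agent.Helper99.ZB
  Pool.Agent.Helper57.EV Pool.Agent.Helper57.EV2 Pool.Agent.Helper57.EV4 Pool.Agent.Helper74.EV4

/-- the degree of `half p` is at most the second coefficient from the top -/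
theorem D_le_F {p : ℤ[X]} {μ F D : ℕ} (hP : TopC p μ F) (hpos : Le 0 p) (hD : μ = p.natTrailingDegree + 2 * D) : D ≤ F := by
  rcases Nat.eq_zero_or_pos D with rfl | hD0
  · exact Nat.zero_le _
  · obtain ⟨k, rfl⟩ : ∃ k, D = k + 1 := ⟨D - 1, by omega⟩
    have h1 := hP.up k
    have h2 : 1 ≤ E p μ (k + 1) := by
      have h3 : p.coeff p.natTrailingDegree ≠ 0 := mt trailingCoeff_eq_zero.1 (ne_zero hP)
      have h4 := hpos p.natTrailingDegree
      rw [coeff_zero] at h4
      unfold E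
      rw [if_pos (by omega)]
      have e1 : μ - 2 * (k + 1) = p.natTrailingDegree := by omega
      rw [e1]
      omega
    have h3 := E_nonneg hpos μ k
    by_contra hcon
    push Not at hcon
    have h4 : ((F : ℤ) - k) * E p μ k ≤ 0 := mul_nonpos_of_nonpos_of_nonneg (by omega) h3
    have h5 : 0 < ((k : ℤ) + 1) * E p μ (k + 1) := by positivity
    linarith

/-- the second coefficient from the top is at most seven times the degree of `half p` -/
theorem F_le_D {p : ℤ[X]} {μ F D : ℕ} (hP : TopC p μ F) (hpos : Le 0 p) (hD : μ = p.natTrailingDegree + 2 * D) : F ≤ 7 * D := by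
  have h1 := hP.lo D
  have h2 : 1 ≤ E p μ D := by
    have h3 : p.coeff p.natTrailingDegree ≠ 0 := mt trailingCoeff_eq_zero.1 (ne_zero hP)
    have h4 := hpos p.natTrailingDegree
    rw [coeff_zero] at h4
    unfold E
    rw [if_pos (by omega)]
    have e1 : μ - 2 * D = p.natTrailingDegree := by omega
    rw [e1]
    omega
  have h3 : E p μ (D + 1) = 0 := by
    unfold E
    split_ifs with h
    · exact coeff_eq_zero_of_lt_natTrailingDegree (by omega)
    · rfl
  rw [h3, mul_zero] at h1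
  by_contra hcon
  push Not at hcon
  have h4 : 0 < ((F : ℤ) - 7 * D) * E p μ D := mul_pos (by omega) (by omega)
  linarith

variable {G : ℕ → Type} [∀ n, Group (G n)] {sg : ∀ n, ℕ → G n} {N : ∀ n, G n → ℤ[X]}

/-- the span of the Conway polynomial is at least `2 (L - 2 n) / 7` -/
theorem span_ge (h : Mk G sg N) {n : ℕ} {w : List ℕ} (hw : ∀ a ∈ w, a < n) (hf : ∀ a < n, a ∈ w) :
    2 * w.length ≤ 4 * n + 7 * ((N n (V (sg n) w)).natDegree - (N n (V (sg n) w)).natTrailingDegree) := by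
  obtain ⟨μ, h1, h2⟩ := h.topC n w hw hf
  have hpos := h.pos n w hw
  obtain ⟨D, hD⟩ := exists_D h2
  have h3 := F_le_D h2 hpos hD
  have h4 := length_le_FF hw
  have h5 := natDegree_p h2
  omega

/-- **Long positive braids with any number of strands, logarithmically many windows.** For all `K` and `ε > 0` there are `C` and `m₀` such
that the inequality holds at all indices at least `ord + ε L` for all positive words of length `L ≥ m₀` with `L ≤ K (deg - ord)` and at
least `C log L` windows, for any number of strands. -/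
theorem uniV (hNZ : NZ) (h : Mk G sg N) (K : ℕ) {ε : ℝ} (hε : 0 < ε) : ∃ C : ℝ, 0 < C ∧ ∃ m₀ : ℕ, ∀ (n : ℕ) (w : List ℕ),
    (∀ a ∈ w, a < n) → (∀ a < n, a ∈ w) → m₀ ≤ w.length →
    w.length ≤ K * ((N n (V (sg n) w)).natDegree - (N n (V (sg n) w)).natTrailingDegree) →
    ∀ M : ℕ, C * Real.log w.length ≤ M →
    (∀ z : ℂ, ‖aeval z (N n (V (sg n) w))‖ ≤
      Real.exp (-(M * (wt (‖z‖ ^ 2) * (1 - Real.cos (2 * z.arg)) / 4))) * aeval ‖z‖ (N n (V (sg n) w))) →
    ∀ k : ℕ, ((N n (V (sg n) w)).natTrailingDegree : ℝ) + ε * w.length ≤ k + 2 →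
      (N n (V (sg n) w)).coeff k * (N n (V (sg n) w)).coeff (k + 4) ≤ (N n (V (sg n) w)).coeff (k + 2) ^ 2 := by
  have hK0 : (0 : ℝ) ≤ K := Nat.cast_nonneg K
  obtain ⟨g, hg⟩ : ∃ g : ℝ, g = 1 / (2 * (K + 1)) := ⟨_, rfl⟩
  have hg0 : 0 < g := by rw [hg]; positivity
  obtain ⟨ε', hε'⟩ : ∃ ε', ε' = min (ε / 2) (g / 2) := ⟨_, rfl⟩
  have hε0 : 0 < ε' := by rw [hε']; exact lt_min (by positivity) (by positivity)
  have hε1 : ε' ≤ ε / 2 := by rw [hε']; exact min_le_left _ _
  have hε2 : ε' ≤ g / 2 := by rw [hε']; exact min_le_right _ _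
  have hl4 : 0 < Real.log 4 := Real.log_pos (by norm_num)
  obtain ⟨r₀, hr₀⟩ : ∃ r₀ : ℝ, r₀ = Real.exp (-(Real.log 4 / ε')) := ⟨_, rfl⟩
  have hr0 : 0 < r₀ := by rw [hr₀]; exact Real.exp_pos _
  have hr1 : r₀ < 1 := by
    rw [hr₀, Real.exp_lt_one_iff]
    have : 0 < Real.log 4 / ε' := by positivity
    linarith
  have hlog : Real.log 4 ≤ ε' * Real.log (1 / r₀) := by
    rw [one_div, Real.log_inv, hr₀, Real.log_exp, neg_neg]
    have : ε' * (Real.log 4 / ε') = Real.log 4 := by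
      field_simp
    rw [this]
  obtain ⟨C, hC, L₀, hL₀⟩ := coreV (bU r₀) 8 r₀ ε' g (g / 65) (bU_pos hr0) (bU_le r₀) (by norm_num) hr0 hr1 hg0
    (by positivity) hε2 hlog
  refine ⟨4 * C, by positivity, max L₀ 1, fun n w hw hf hm hspan M hM hwin k hk => ?_⟩
  have hm0 : L₀ ≤ w.length := (le_max_left _ _).trans hm
  have hm1 : 1 ≤ w.length := (le_max_right _ _).trans hm
  have hmR : (1 : ℝ) ≤ w.length := by exact_mod_cast hm1
  have hne : w ≠ [] := by
    rintro rfl
    simp at hm1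
  obtain ⟨p, hp⟩ : ∃ p, p = N n (V (sg n) w) := ⟨_, rfl⟩
  obtain ⟨μ, hμ, htop⟩ := h.topC n w hw hf
  have hpos := h.pos n w hw
  obtain ⟨h0, hpar', -⟩ := word h hw hf hp
  rw [← hp] at hwin hk htop hpos hspan ⊢
  have hpar : ∀ j k, p.coeff j ≠ 0 → p.coeff k ≠ 0 → j % 2 = k % 2 := by
    intro j k hj hk
    have e1 : ¬ (j + (w.length - n)) % 2 = 1 := fun e => hj (hpar' j e)
    have e2 : ¬ (k + (w.length - n)) % 2 = 1 := fun e => hk (hpar' k e)
    omega
  have hnn : ∀ j, 0 ≤ p.coeff j := by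
    intro j
    have h1 := hpos j
    rwa [coeff_zero] at h1
  obtain ⟨D, hD⟩ := exists_D htop
  have hDd := (half_natDegree htop hD).1
  have hDF := D_le_F htop hpos hD
  have hdegp := natDegree_p htop
  have hspan2 : w.length ≤ 2 * K * D := by
    refine hspan.trans (le_of_eq ?_)
    rw [hdegp, hD]
    have : p.natTrailingDegree + 2 * D - p.natTrailingDegree = 2 * D := by omega
    rw [this]
    ring
  have hgD : g * w.length ≤ D := by
    have h1 : (w.length : ℝ) ≤ 2 * K * D := by exact_mod_cast hspan2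
    have h2 : (0 : ℝ) ≤ D := Nat.cast_nonneg D
    rw [hg, div_mul_eq_mul_div, one_mul, div_le_iff₀ (by positivity)]
    linarith
  -- the decay
  have hdec : ∀ z : ℂ, z ≠ 0 → ‖aeval z p‖ ≤
      Real.exp (-((M : ℝ) / 4 * (1 : ℕ) * wt (‖z‖ ^ 2) * (1 - Real.cos (2 * z.arg)))) * aeval ‖z‖ p := by
    intro z _
    refine (hwin z).trans (le_of_eq ?_)
    congr 3
    push_cast
    ring
  have hyp := hypU_of (κ := 0) hNZ h hw hf hne hr0 (by
    intro r θ hr hθ
    have hrp : 0 < r := lt_of_lt_of_le hr0 hr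
    rw [← hp, zero_mul, zero_mul, zero_mul, neg_zero, Real.exp_zero, one_mul]
    have h2 := word h hw hf hp
    have hN : EVC.Nice w.length (half p) := ⟨h2.2.2.1, h2.2.2.2.1, h2.2.2.2.2.1⟩
    have h3 := norm_aeval_le hN (EVC.pt r θ)
    have h4 : ‖EVC.pt r θ‖ = r := by
      unfold EVC.pt
      rw [norm_mul, Complex.norm_exp_ofReal_mul_I, mul_one, Complex.norm_real, Real.norm_of_nonneg hrp.le]
    rw [h4] at h3
    exact h3)
  rw [← hp] at hyp
  have hhyp : HypV (bU r₀) 8 r₀ w.length (half p) := ⟨hyp.toNice, hyp.dist, hyp.far, hyp.up⟩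
  have hz : ∀ z : ℂ, aeval z p = 0 → ‖z‖ ^ 2 ≤ 8 := by
    intro z hz
    rw [hp] at hz
    exact zero_bound_eight h hw hf hz
  refine lc_from hpar h0 (K := ε' * w.length) (fun j hj1 hj2 => ?_) k ?_
  · refine hL₀ w.length hm0 (half p) hhyp ?_ ?_ (M / 4) ?_ ?_ j hj1 hj2
    · rw [hDd]
      exact hgD
    · intro i hi1 hi2
      obtain ⟨i', rfl⟩ : ∃ i', i = i' + 1 := ⟨i - 1, by omega⟩
      have h1 : 65 * D ≤ FF n w + 65 * (i' + 1) := by
        rw [hDd] at hi2
        have h2 : (65 : ℝ) * D ≤ D + 65 * (i' + 1) := by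
          push_cast at hi2
          nlinarith
        have h3 : 65 * D ≤ D + 65 * (i' + 1) := by exact_mod_cast h2
        omega
      have h2 := half_lc_top htop hpos hz (k := i') (by rw [hDd]; exact h1)
      simpa using h2
    · linarith
    · intro r θ hr hθ
      have h1 := dec_half hpar h0 (L := 1) (κ := M / 4) hdec r θ (lt_of_lt_of_le hr0 hr) hθ
      refine h1.trans (le_of_eq ?_)
      congr 3
      push_cast
      ring
  · have h1 : 0 ≤ (w.length : ℝ) := by linarith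
    nlinarith

/-- the same, with the zero-free neighbourhood plugged in -/
theorem uniV' (h : Mk G sg N) (K : ℕ) {ε : ℝ} (hε : 0 < ε) : ∃ C : ℝ, 0 < C ∧ ∃ m₀ : ℕ, ∀ (n : ℕ) (w : List ℕ),
    (∀ a ∈ w, a < n) → (∀ a < n, a ∈ w) → m₀ ≤ w.length →
    w.length ≤ K * ((N n (V (sg n) w)).natDegree - (N n (V (sg n) w)).natTrailingDegree) →
    ∀ M : ℕ, C * Real.log w.length ≤ M →
    (∀ z : ℂ, ‖aeval z (N n (V (sg n) w))‖ ≤
      Real.exp (-(M * (wt (‖z‖ ^ 2) * (1 - Real.cos (2 * z.arg)) / 4))) * aeval ‖z‖ (N n (V (sg n) w))) →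
    ∀ k : ℕ, ((N n (V (sg n) w)).natTrailingDegree : ℝ) + ε * w.length ≤ k + 2 →
      (N n (V (sg n) w)).coeff k * (N n (V (sg n) w)).coeff (k + 4) ≤ (N n (V (sg n) w)).coeff (k + 2) ^ 2 :=
  uniV nz h K hε

end Pool.Agent.Helper74.UNI
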