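import Mathlib

/-!
# UNI*: real sequences with `∑ x_j (Re (w) ^ j - Re (w ^ j)) ≥ 0`

If `x 2` is small, all `x j`, `2 ≤ j ≤ m`, are small.
-/

set_option autoImplicit false

namespace Pool.Agent.Helper74.UNI

open Finset

/-- the positivity, with the error of the partial sums -/
def Pos (C ρ : ℝ) (x : ℕ → ℝ) : Prop := ∀ w : ℂ, ‖w‖ ≤ ρ / 2 → ∀ M : ℕ,
  -(4 * C * (‖w‖ / ρ) ^ M) ≤ ∑ j ∈ range M, x j * (w.re ^ j - (w ^ j).re)

theorem polar_re (s α : ℝ) (j : ℕ) : ((((s : ℂ) * Complex.exp (α * Complex.I)) ^ j).re) = s ^ j * Real.cos (j * α) := by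
  rw [mul_pow, ← Complex.exp_nat_mul, ← Complex.ofReal_pow, Complex.re_ofReal_mul]
  congr 1
  have e : (j : ℂ) * ((α : ℂ) * Complex.I) = ((j * α : ℝ) : ℂ) * Complex.I := by push_cast; ring
  rw [e, Complex.exp_ofReal_mul_I_re]

theorem seq_small {C ρ : ℝ} (hC : 0 < C) (hρ : 0 < ρ) : ∀ m : ℕ, 2 ≤ m → ∀ δ : ℝ, 0 < δ → ∃ η : ℝ, 0 < η ∧
    ∀ x : ℕ → ℝ, Pos C ρ x → |x 2| ≤ η → ∀ j, 2 ≤ j → j ≤ m → |x j| ≤ δ := by
  intro m hm
  induction m, hm using Nat.le_induction with
  | base =>
    intro δ hδ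
    refine ⟨δ, hδ, fun x _ h2 j h3 h4 => ?_⟩
    have : j = 2 := by omega
    rw [this]
    exact h2
  | succ m hm ih =>
    intro δ hδ
    -- the angle where the cosine is `1`
    obtain ⟨β, hβ⟩ : ∃ β : ℝ, β = 2 * Real.pi / (m + 1) := ⟨_, rfl⟩
    obtain ⟨α, hα⟩ : ∃ α : ℝ, α = Real.pi / (m + 1) := ⟨_, rfl⟩
    have hmR : (2 : ℝ) ≤ m := by exact_mod_cast hm
    have hpi := Real.pi_pos
    have hm1 : (0 : ℝ) < m + 1 := by linarith
    have hcosβ : |Real.cos β| < 1 := by
      have hβ0 : 0 < β := by rw [hβ]; positivity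
      have hβ1 : β < Real.pi := by
        rw [hβ, div_lt_iff₀ hm1]
        nlinarith
      have hs := Real.sin_pos_of_pos_of_lt_pi hβ0 hβ1
      have h1 := Real.sin_sq_add_cos_sq β
      rw [← sq_lt_one_iff_abs_lt_one]
      nlinarith
    have hcosα : 0 ≤ Real.cos α := by
      apply Real.cos_nonneg_of_mem_Icc
      constructor
      · have : 0 ≤ α := by rw [hα]; positivity
        linarith
      · rw [hα]
        exact div_le_div_of_nonneg_left hpi.le (by norm_num) (by linarith)
    obtain ⟨A, hA⟩ : ∃ A : ℝ, A = min 1 (1 - |Real.cos β| ^ (m + 1)) := ⟨_, rfl⟩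
    have hA0 : 0 < A := by
      rw [hA]
      refine lt_min one_pos (sub_pos.2 ?_)
      exact pow_lt_one₀ (abs_nonneg _) hcosβ (by omega)
    have hA1 : A ≤ 1 := by rw [hA]; exact min_le_left _ _
    have hA2 : A ≤ 1 - |Real.cos β| ^ (m + 1) := by rw [hA]; exact min_le_right _ _
    -- the radius
    obtain ⟨s, hs⟩ : ∃ s : ℝ, s = min (min (ρ / 2) 1) (A * δ / 2 / (4 * C / ρ ^ (m + 2))) := ⟨_, rfl⟩
    have hs0 : 0 < s := by
      rw [hs]
      exact lt_min (lt_min (by positivity) one_pos) (by positivity)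
    have hs1 : s ≤ ρ / 2 := by rw [hs]; exact (min_le_left _ _).trans (min_le_left _ _)
    have hs2 : s ≤ 1 := by rw [hs]; exact (min_le_left _ _).trans (min_le_right _ _)
    have hs3 : s * (4 * C / ρ ^ (m + 2)) ≤ A * δ / 2 := by
      rw [← le_div_iff₀ (by positivity), hs]
      exact min_le_right _ _
    obtain ⟨δ', hδ'⟩ : ∃ δ' : ℝ, δ' = min δ (A * δ / 2 * s ^ (m + 1) / (2 * (m + 2))) := ⟨_, rfl⟩
    have hδ0 : 0 < δ' := by
      rw [hδ']
      exact lt_min hδ (by positivity)
    have hδ1 : δ' ≤ δ := by rw [hδ']; exact min_le_left _ _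
    have hδ2 : 2 * (m + 2) * δ' ≤ A * δ / 2 * s ^ (m + 1) := by
      have h1 : δ' ≤ A * δ / 2 * s ^ (m + 1) / (2 * (m + 2)) := by rw [hδ']; exact min_le_right _ _
      rw [le_div_iff₀ (by positivity)] at h1
      linarith
    obtain ⟨η, hη, hη2⟩ := ih δ' hδ0
    refine ⟨η, hη, fun x hx h2 j h3 h4 => ?_⟩
    have hsm := hη2 x hx h2
    rcases Nat.lt_or_ge j (m + 1) with h5 | h5
    · exact (hsm j h3 (by omega)).trans hδ1
    have hj : j = m + 1 := by omega
    rw [hj]
    -- the inequality on the circle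
    have key : ∀ φ : ℝ, -(A * δ * s ^ (m + 1)) ≤
        x (m + 1) * (s ^ (m + 1) * (Real.cos φ ^ (m + 1) - Real.cos ((m + 1 : ℕ) * φ))) := by
      intro φ
      obtain ⟨w, hw⟩ : ∃ w : ℂ, w = (s : ℂ) * Complex.exp (φ * Complex.I) := ⟨_, rfl⟩
      have hwn : ‖w‖ = s := by
        rw [hw, norm_mul, Complex.norm_exp_ofReal_mul_I, mul_one, Complex.norm_real, Real.norm_of_nonneg hs0.le]
      have hwre : w.re = s * Real.cos φ := by
        have := polar_re s φ 1
        rw [pow_one, pow_one, Nat.cast_one, one_mul, ← hw] at this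
        exact this
      have h6 := hx w (by rw [hwn]; exact hs1) (m + 2)
      rw [sum_range_succ, hwn] at h6
      have hterm : ∀ i, x i * (w.re ^ i - (w ^ i).re) = x i * (s ^ i * (Real.cos φ ^ i - Real.cos (i * φ))) := by
        intro i
        rw [hwre, hw, polar_re, mul_pow]
        ring
      rw [hterm (m + 1)] at h6
      have h7 : ∑ i ∈ range (m + 1), x i * (w.re ^ i - (w ^ i).re) ≤ ∑ i ∈ range (m + 1), 2 * δ' := by
        refine sum_le_sum fun i hi => ?_
        rw [mem_range] at hi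
        rw [hterm i]
        rcases Nat.lt_or_ge i 2 with h8 | h8
        · interval_cases i
          · simp
            linarith
          · simp
            linarith
        · have h9 := hsm i h8 (by omega)
          have h10 : |s ^ i * (Real.cos φ ^ i - Real.cos (i * φ))| ≤ 2 := by
            rw [abs_mul, abs_of_nonneg (by positivity)]
            have h11 : s ^ i ≤ 1 := pow_le_one₀ hs0.le hs2
            have h12 : |Real.cos φ ^ i - Real.cos (i * φ)| ≤ 2 := by
              have h13 : |Real.cos φ ^ i| ≤ 1 := by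
                rw [abs_pow]
                exact pow_le_one₀ (abs_nonneg _) (Real.abs_cos_le_one φ)
              have h14 := Real.abs_cos_le_one (i * φ)
              have h15 := abs_sub (Real.cos φ ^ i) (Real.cos (i * φ))
              linarith
            calc s ^ i * |Real.cos φ ^ i - Real.cos (i * φ)| ≤ 1 * 2 :=
                  mul_le_mul h11 h12 (abs_nonneg _) (by norm_num)
              _ = 2 := by norm_num
          have h11 := le_abs_self (x i * (s ^ i * (Real.cos φ ^ i - Real.cos (i * φ))))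
          rw [abs_mul] at h11
          have h12 := mul_le_mul h9 h10 (abs_nonneg _) hδ0.le
          linarith
      rw [sum_const, card_range, nsmul_eq_mul] at h7
      have h8 : 4 * C * (s / ρ) ^ (m + 2) ≤ A * δ / 2 * s ^ (m + 1) := by
        calc 4 * C * (s / ρ) ^ (m + 2) = s * (4 * C / ρ ^ (m + 2)) * s ^ (m + 1) := by
              rw [div_pow]
              ring
          _ ≤ _ := mul_le_mul_of_nonneg_right hs3 (by positivity)
      have h9 : ((m + 1 : ℕ) : ℝ) * (2 * δ') ≤ A * δ / 2 * s ^ (m + 1) := by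
        refine le_trans ?_ hδ2
        push_cast
        nlinarith
      linarith
    have hsp : 0 < s ^ (m + 1) := by positivity
    rw [abs_le]
    constructor
    · -- lower bound
      have h6 := key α
      have h7 : Real.cos (((m + 1 : ℕ) : ℝ) * α) = -1 := by
        rw [hα]
        push_cast
        rw [mul_div_cancel₀ _ hm1.ne', Real.cos_pi]
      rw [h7, sub_neg_eq_add] at h6
      by_contra hcon
      push Not at hcon
      have h8 : 1 ≤ Real.cos α ^ (m + 1) + 1 := by
        have : 0 ≤ Real.cos α ^ (m + 1) := pow_nonneg hcosα _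
        linarith
      have h9 : x (m + 1) * (s ^ (m + 1) * (Real.cos α ^ (m + 1) + 1)) ≤ x (m + 1) * (s ^ (m + 1) * 1) := by
        apply mul_le_mul_of_nonpos_left _ (by linarith)
        exact mul_le_mul_of_nonneg_left h8 hsp.le
      have h10 : A * δ ≤ δ := by nlinarith
      nlinarith
    · have h6 := key β
      have h7 : Real.cos (((m + 1 : ℕ) : ℝ) * β) = 1 := by
        rw [hβ]
        push_cast
        rw [mul_div_cancel₀ _ hm1.ne', Real.cos_two_pi]
      rw [h7] at h6
      by_contra hcon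
      push Not at hcon
      have h8 : Real.cos β ^ (m + 1) - 1 ≤ -A := by
        have : Real.cos β ^ (m + 1) ≤ |Real.cos β| ^ (m + 1) := by
          rw [← abs_pow]
          exact le_abs_self _
        linarith
      have h9 : x (m + 1) * (s ^ (m + 1) * (Real.cos β ^ (m + 1) - 1)) ≤ x (m + 1) * (s ^ (m + 1) * -A) := by
        apply mul_le_mul_of_nonneg_left _ (by linarith)
        exact mul_le_mul_of_nonneg_left h8 hsp.le
      have h10 : δ * (s ^ (m + 1) * A) < x (m + 1) * (s ^ (m + 1) * A) :=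
        mul_lt_mul_of_pos_right hcon (by positivity)
      nlinarith

end Pool.Agent.Helper74.UNI
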