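import Pool.Agent.Helper74.UNI.FinalV
import Pool.Agent.Helper7.UNI.Windows

/-!
# UNI*: the theorem with cubes, one constant

For every `ε > 0` there is `C` such that the inequality holds at all indices at least `ord + ε L` for every positive word with at least
`C log (L + 2)` disjoint blocks `i i i`, for any number of strands and any genus.
-/

set_option autoImplicit false

namespace Pool.Agent.Helper74.UNI

open Polynomial Matrix Pool.Agent.Helper76.Conway Pool.Agent.Helper76.Conway.Top Pool.Agent.Helper99.ZB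
  Pool.Agent.Helper57.EV Pool.Agent.Helper57.EV2 Pool.Agent.Helper57.EV4 Pool.Agent.Helper74.EV4

theorem cubes_le {α : Type} [DecidableEq α] : ∀ (m : ℕ) (w : List α), w.length ≤ m →
    3 * Pool.Agent.Helper7.UNI.cubes w ≤ w.length := by
  intro m
  induction m with
  | zero =>
    intro w hw
    have h0 : w = [] := List.length_eq_zero_iff.1 (Nat.le_zero.1 hw)
    subst h0
    simp [Pool.Agent.Helper7.UNI.cubes]
  | succ m ih =>
    intro w hw
    match w, hw with
    | [], _ => simp [Pool.Agent.Helper7.UNI.cubes]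
    | [a], _ => simp [Pool.Agent.Helper7.UNI.cubes]
    | [a, b], _ => simp [Pool.Agent.Helper7.UNI.cubes]
    | a :: b :: c :: u, hw =>
      simp only [List.length_cons] at hw
      by_cases h : a = b ∧ b = c
      · obtain ⟨rfl, rfl⟩ := h
        rw [Pool.Agent.Helper7.UNI.cubes_cube]
        have h1 := ih u (by omega)
        simp only [List.length_cons]
        omega
      · rw [Pool.Agent.Helper7.UNI.cubes_skip u h]
        have h1 := ih (b :: c :: u) (by simp only [List.length_cons]; omega)
        simp only [List.length_cons] at h1 ⊢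
        omega

variable {G : ℕ → Type} [∀ n, Group (G n)] {sg : ∀ n, ℕ → G n} {N : ∀ n, G n → ℤ[X]}

/-- **Positive braids with logarithmically many cubes, any number of strands.** -/
theorem star (h : Mk G sg N) {ε : ℝ} (hε : 0 < ε) : ∃ C : ℝ, 0 < C ∧ ∀ (n : ℕ) (w : List ℕ), (∀ a ∈ w, a < n) →
    C * Real.log (w.length + 2) ≤ Pool.Agent.Helper7.UNI.cubes w →
    ∀ k : ℕ, ((N n (V (sg n) w)).natTrailingDegree : ℝ) + ε * w.length ≤ k + 2 →
      (N n (V (sg n) w)).coeff k * (N n (V (sg n) w)).coeff (k + 4) ≤ (N n (V (sg n) w)).coeff (k + 2) ^ 2 := by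
  obtain ⟨K, hK⟩ := exists_nat_ge (1 / ε)
  obtain ⟨C, hC, m₀, hm₀⟩ := uniV' h K hε
  have hl2 : 1 / 2 ≤ Real.log 2 := by
    have := Real.log_two_gt_d9
    linarith
  refine ⟨C + 2 * (m₀ + 1), by positivity, fun n w hw hcub k hk => ?_⟩
  obtain ⟨p, hp⟩ : ∃ p, p = N n (V (sg n) w) := ⟨_, rfl⟩
  have hLn : (0 : ℝ) ≤ w.length := Nat.cast_nonneg _
  by_cases hf : ∀ a < n, a ∈ w
  swap
  · push Not at hf
    obtain ⟨a, ha1, ha2⟩ := hf
    rw [h.zero_of_missing n w hw a ha1 ha2]
    simp
  -- the length is large
  have hlog2 : Real.log 2 ≤ Real.log (w.length + 2) := Real.log_le_log (by norm_num) (by linarith)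
  have hm0R : (0 : ℝ) ≤ m₀ := Nat.cast_nonneg m₀
  have hlen : m₀ ≤ w.length := by
    have h1 : (Pool.Agent.Helper7.UNI.cubes w : ℝ) ≤ w.length := by
      have := cubes_le w.length w le_rfl
      exact_mod_cast (by omega : Pool.Agent.Helper7.UNI.cubes w ≤ w.length)
    have h2 : (m₀ : ℝ) ≤ w.length := by
      have h3 : 0 ≤ C * Real.log (w.length + 2) := mul_nonneg hC.le (by linarith)
      have h4 : 2 * ((m₀ : ℝ) + 1) * (1 / 2) ≤ 2 * (m₀ + 1) * Real.log (w.length + 2) :=
        mul_le_mul_of_nonneg_left (by linarith) (by positivity)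
      nlinarith
    exact_mod_cast h2
  have hC2 : C * Real.log w.length ≤ Pool.Agent.Helper7.UNI.cubes w := by
    refine le_trans ?_ hcub
    rcases Nat.eq_zero_or_pos w.length with h0 | h0
    · rw [h0, Nat.cast_zero, Real.log_zero, mul_zero, zero_add]
      exact mul_nonneg (by positivity) (by linarith)
    · have h0' : (0 : ℝ) < w.length := by exact_mod_cast h0
      have h1 : Real.log w.length ≤ Real.log (w.length + 2) := Real.log_le_log h0' (by linarith)
      have h2 : C * Real.log w.length ≤ C * Real.log (w.length + 2) := mul_le_mul_of_nonneg_left h1 hC.le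
      have h3 : 0 ≤ 2 * ((m₀ : ℝ) + 1) * Real.log (w.length + 2) := mul_nonneg (by positivity) (by linarith)
      linarith
  by_cases hspan : w.length ≤ K * ((N n (V (sg n) w)).natDegree - (N n (V (sg n) w)).natTrailingDegree)
  · exact hm₀ n w hw hf hlen hspan _ hC2 (Pool.Agent.Helper7.UNI.win h hw) k hk
  · -- the range is above the degree
    rw [← hp] at hk hspan ⊢
    push Not at hspan
    have h1 : (K : ℝ) * ((p.natDegree - p.natTrailingDegree : ℕ) : ℝ) < w.length := by exact_mod_cast hspan
    have h2 : ((p.natDegree - p.natTrailingDegree : ℕ) : ℝ) ≤ ε * w.length := by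
      have h3 : 1 ≤ ε * K := by
        rw [div_le_iff₀ hε] at hK
        linarith
      have h4 : (0 : ℝ) ≤ ((p.natDegree - p.natTrailingDegree : ℕ) : ℝ) := Nat.cast_nonneg _
      calc ((p.natDegree - p.natTrailingDegree : ℕ) : ℝ) ≤ ε * K * ((p.natDegree - p.natTrailingDegree : ℕ) : ℝ) := by nlinarith
        _ = ε * (K * ((p.natDegree - p.natTrailingDegree : ℕ) : ℝ)) := by ring
        _ ≤ _ := mul_le_mul_of_nonneg_left h1.le hε.le
    have h3 : ((p.natDegree : ℝ)) ≤ k + 2 := by
      have h4 := natTrailingDegree_le_natDegree p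
      have h5 : (p.natDegree : ℝ) = p.natTrailingDegree + ((p.natDegree - p.natTrailingDegree : ℕ) : ℝ) := by
        exact_mod_cast (by omega : p.natDegree = p.natTrailingDegree + (p.natDegree - p.natTrailingDegree))
      linarith
    have h4 : p.natDegree ≤ k + 2 := by exact_mod_cast h3
    rw [coeff_eq_zero_of_natDegree_lt (n := k + 4) (by omega), mul_zero]
    exact sq_nonneg _

end Pool.Agent.Helper74.UNI
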