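import Pool.Agent.Helper74.UNI.Star
import Pool.Agent.Helper85.UNI.Fin

/-!
# UNI*: the theorem for braids
-/

set_option autoImplicit false

namespace Pool.Agent.Helper74.UNI

open Polynomial Pool.Agent.Helper76.Conway.Top Pool.Agent.Helper85.UNI

/-- **Positive braids with logarithmically many cubes.** -/
theorem star_braid {ε : ℝ} (hε : 0 < ε) : ∃ C : ℝ, 0 < C ∧ ∀ nabla : ∀ n, Braid n → ℤ[X], IsConwayPolynomial nabla →
    ∀ (n : ℕ) (w : List (Fin n)), C * Real.log (w.length + 2) ≤ Pool.Agent.Helper7.UNI.cubes w →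
    ∀ j k : ℤ, coeffX (nabla n (ofWord w)) (numComponents (ofWord w)) j ≠ 0 → (j : ℝ) + ε * w.length ≤ k →
    coeffX (nabla n (ofWord w)) (numComponents (ofWord w)) (k + 1) * coeffX (nabla n (ofWord w)) (numComponents (ofWord w)) (k - 1) ≤
      coeffX (nabla n (ofWord w)) (numComponents (ofWord w)) k ^ 2 := by
  obtain ⟨nabla₀, h₀, -⟩ := existsUnique_conway
  obtain ⟨C, hC, hstar⟩ := star (mk h₀) (ε := 2 * ε) (by positivity)
  refine ⟨C, hC, fun nabla h n w hK j k hj hk => ?_⟩
  rw [nabla_eq h₀ h] at hj ⊢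
  refine glue h₀ w (E := ε * w.length) (fun _ i hi => ?_) j k hj hk
  have h1 := hstar n (w.map Fin.val) (gen_lt w) (by
    rw [List.length_map, Pool.Agent.Helper7.UNI.cubes_map Fin.val_injective w.length w le_rfl]
    exact hK) i
  rw [V_gen, List.length_map] at h1
  apply h1
  linarith

end Pool.Agent.Helper74.UNI
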