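import Pool.Agent.Helper74.UNI.Seq
import Pool.Agent.Helper74.UNI.Expand
import Pool.Agent.Helper3.EVC.E03
import Pool.Agent.Helper3.EVC.E10
import Pool.Agent.Helper3.EVC.E15
import Pool.Agent.Helper3.E4.Var

/-!
# UNI*: a small variance at one radius makes the variance small at the neighbouring radii
-/

set_option autoImplicit false

namespace Pool.Agent.Helper74.UNI

open Polynomial EVC Finset

theorem norm_aeval_le {L : ℕ} {P : ℝ[X]} (h : Nice L P) (z : ℂ) : ‖aeval z P‖ ≤ P.eval ‖z‖ := by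
  rw [aeval_eq_sum_range, eval_eq_sum_range]
  refine (norm_sum_le _ _).trans (le_of_eq (Finset.sum_congr rfl fun k _ => ?_))
  rw [norm_smul, norm_pow, Real.norm_of_nonneg (h.nn k)]

theorem norm_pexp {r : ℝ} (hr : 0 < r) (w : ℂ) : ‖(r : ℂ) * Complex.exp w‖ = r * Real.exp w.re := by
  rw [norm_mul, Complex.norm_real, Real.norm_of_nonneg hr.le, Complex.norm_exp]

theorem W_le' {b : ℝ} (hb : 0 < b) {L : ℕ} {P : ℝ[X]} (h : Nice L P) {r : ℝ} (hp : ∀ q ∈ Z P, ‖p r q‖ ≤ 1 / b) :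
    W P r ≤ 1 / b * (1 + 1 / b) * L := by
  have h1 : ∀ ρ ∈ Z P, ‖p r ρ * (1 - p r ρ)‖ ≤ 1 / b * (1 + 1 / b) := by
    intro ρ hρ
    have h2 := hp ρ hρ
    have h3 : ‖1 - p r ρ‖ ≤ 1 + 1 / b := by
      refine (norm_sub_le _ _).trans ?_
      rw [norm_one]
      linarith
    rw [norm_mul]
    exact mul_le_mul h2 h3 (norm_nonneg _) (by positivity)
  have h2 : W P r ≤ ((Z P).map fun _ => 1 / b * (1 + 1 / b)).sum := by
    unfold W
    exact Multiset.sum_map_le_sum_map _ _ h1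
  rw [Multiset.map_const', Multiset.sum_replicate, nsmul_eq_mul] at h2
  have h3 := Pool.Agent.Helper3.E4.card_le h
  have h4 : (0 : ℝ) ≤ (Z P).card := Nat.cast_nonneg _
  have h5 : ((Z P).card : ℝ) * (1 / b * (1 + 1 / b)) ≤ L * (1 / b * (1 + 1 / b)) :=
    mul_le_mul_of_nonneg_right (by linarith) (by positivity)
  linarith

/-- the expansion of `expand` -/
def Ex (ρ : ℝ) (L : ℕ) (P : ℝ[X]) (r : ℝ) (x : ℕ → ℝ) : Prop := (∀ m, |x m| ≤ 1 / ρ ^ m) ∧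
    ∀ w : ℂ, ‖w‖ < ρ → ∃ S : ℝ, HasSum (fun m => x m * (w ^ m).re) S ∧
      ‖aeval ((r : ℂ) * Complex.exp w) P‖ * ‖aeval ((r : ℂ) * Complex.exp (starRingEnd ℂ w)) P‖ =
        P.eval r ^ 2 * Real.exp (2 * L * S)

theorem diff_sum {ρ : ℝ} (hρ : 0 < ρ) {x : ℕ → ℝ} (hx : ∀ m, |x m| ≤ 1 / ρ ^ m) {w : ℂ} (hw : ‖w‖ ≤ ρ / 2) {S S' : ℝ}
    (hS : HasSum (fun m => x m * (w ^ m).re) S) (hS' : HasSum (fun m => x m * (((w.re : ℝ) : ℂ) ^ m).re) S') (M : ℕ) :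
    |∑ j ∈ range M, x j * (w.re ^ j - (w ^ j).re) - (S' - S)| ≤ 4 * (‖w‖ / ρ) ^ M := by
  have hn := norm_nonneg w
  have ht : ‖w‖ / ρ ≤ 1 / 2 := by
    rw [div_le_div_iff₀ hρ (by norm_num)]
    linarith
  have ht0 : 0 ≤ ‖w‖ / ρ := by positivity
  have h1 : HasSum (fun j => x j * (w.re ^ j - (w ^ j).re)) (S' - S) := by
    refine (hS'.sub hS).congr_fun ?_ |> fun h => h
    intro j
    rw [← Complex.ofReal_pow, Complex.ofReal_re]
    ring
  have h2 : ∀ j, ‖x j * (w.re ^ j - (w ^ j).re)‖ ≤ 2 * (‖w‖ / ρ) ^ j := by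
    intro j
    rw [Real.norm_eq_abs, abs_mul]
    have h3 : |w.re ^ j - (w ^ j).re| ≤ 2 * ‖w‖ ^ j := by
      have h4 : |w.re ^ j| ≤ ‖w‖ ^ j := by
        rw [abs_pow]
        exact pow_le_pow_left₀ (abs_nonneg _) (Complex.abs_re_le_norm w) j
      have h5 : |(w ^ j).re| ≤ ‖w‖ ^ j := by
        rw [← norm_pow]
        exact Complex.abs_re_le_norm _
      have h6 := abs_sub (w.re ^ j) ((w ^ j).re)
      linarith
    calc |x j| * |w.re ^ j - (w ^ j).re| ≤ 1 / ρ ^ j * (2 * ‖w‖ ^ j) := mul_le_mul (hx j) h3 (abs_nonneg _) (by positivity)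
      _ = 2 * (‖w‖ / ρ) ^ j := by rw [div_pow]; ring
  have h3 := norm_sub_le_of_geometric_bound_of_hasSum (by linarith) h2 h1 M
  rw [Real.norm_eq_abs] at h3
  refine h3.trans ?_
  rw [div_le_iff₀ (by linarith)]
  have : 0 ≤ (‖w‖ / ρ) ^ M := by positivity
  nlinarith

theorem real_pt {r : ℝ} (u : ℝ) : (r : ℂ) * Complex.exp (u : ℂ) = ((r * Real.exp u : ℝ) : ℂ) := by
  push_cast
  ring

theorem pos_of {ρ : ℝ} (hρ : 0 < ρ) {L : ℕ} (hL : 1 ≤ L) {P : ℝ[X]} (h : Nice L P) {r : ℝ} (hr : 0 < r) {x : ℕ → ℝ}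
    (hx : Ex ρ L P r x) : Pos 1 ρ x := by
  intro w hw M
  have hLR : (0 : ℝ) < L := by exact_mod_cast hL
  have hPr := h.eval_pos hr
  have hn := norm_nonneg w
  have hre : ‖((w.re : ℝ) : ℂ)‖ ≤ ‖w‖ := by
    rw [Complex.norm_real, Real.norm_eq_abs]
    exact Complex.abs_re_le_norm w
  obtain ⟨S, hS, hS2⟩ := hx.2 w (by linarith)
  obtain ⟨S', hS', hS2'⟩ := hx.2 ((w.re : ℝ) : ℂ) (by linarith)
  have hd := diff_sum hρ hx.1 hw hS hS' M
  have hSS : S ≤ S' := by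
    rw [Complex.conj_ofReal, real_pt, E03.aeval_real, Complex.norm_real, Real.norm_eq_abs] at hS2'
    have h1 := norm_aeval_le h ((r : ℂ) * Complex.exp w)
    have h2 := norm_aeval_le h ((r : ℂ) * Complex.exp (starRingEnd ℂ w))
    rw [norm_pexp hr] at h1 h2
    rw [Complex.conj_re] at h2
    have h3 := le_abs_self (P.eval (r * Real.exp w.re))
    have h4 : P.eval r ^ 2 * Real.exp (2 * L * S) ≤ P.eval r ^ 2 * Real.exp (2 * L * S') := by
      rw [← hS2, ← hS2']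
      exact mul_le_mul (h1.trans h3) (h2.trans h3) (norm_nonneg _) (abs_nonneg _)
    have h5 := Real.exp_le_exp.1 (le_of_mul_le_mul_left h4 (by positivity))
    exact le_of_mul_le_mul_left h5 (by positivity)
  have h1 := (abs_le.1 hd).1
  linarith

/-- **The key comparison** between the expansion at `r` and the variance at `r e^u`. -/
theorem key {b : ℝ} (hb : 0 < b) (hb1 : b ≤ 1) : ∃ θ₂ : ℝ, 0 < θ₂ ∧ ∃ K : ℝ, 0 < K ∧ ∀ (L : ℕ) (P : ℝ[X]), 1 ≤ L →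
    Nice L P → ∀ r : ℝ, 0 < r → ∀ (ρ : ℝ) (x : ℕ → ℝ), 0 < ρ → Ex ρ L P r x → ∀ u θ : ℝ,
    (∀ q ∈ Z P, ‖p (r * Real.exp u) q‖ ≤ 1 / b) → |θ| ≤ θ₂ → ‖(u : ℂ) + θ * Complex.I‖ ≤ ρ / 2 → ∀ M : ℕ,
    |θ ^ 2 * V P (r * Real.exp u) / (2 * L) -
      ∑ j ∈ range M, x j * (u ^ j - (((u : ℂ) + θ * Complex.I) ^ j).re)| ≤
      K * |θ| ^ 3 + 4 * (‖(u : ℂ) + θ * Complex.I‖ / ρ) ^ M := by
  obtain ⟨θ₂, hθ₂, K, hK, hlf⟩ := local_form (B := 1 / b) (by
    rw [le_div_iff₀ hb]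
    linarith)
  refine ⟨θ₂, hθ₂, K * (1 / b * (1 + 1 / b)), by positivity, fun L P hL h r hr ρ x hρ hx u θ hp hθ hw M => ?_⟩
  have hLR : (0 : ℝ) < L := by exact_mod_cast hL
  have hPr := h.eval_pos hr
  obtain ⟨w, hwd⟩ : ∃ w : ℂ, w = (u : ℂ) + θ * Complex.I := ⟨_, rfl⟩
  have hwre : w.re = u := by rw [hwd]; simp
  rw [← hwd] at hw ⊢
  have hn := norm_nonneg w
  have hre : ‖((w.re : ℝ) : ℂ)‖ ≤ ‖w‖ := by
    rw [Complex.norm_real, Real.norm_eq_abs]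
    exact Complex.abs_re_le_norm w
  obtain ⟨S, hS, hS2⟩ := hx.2 w (by linarith)
  obtain ⟨S', hS', hS2'⟩ := hx.2 ((w.re : ℝ) : ℂ) (by linarith)
  have hd := diff_sum hρ hx.1 hw hS hS' M
  obtain ⟨r', hr'⟩ : ∃ r', r' = r * Real.exp u := ⟨_, rfl⟩
  have hr0' : 0 < r' := by rw [hr']; positivity
  have hPr' := h.eval_pos hr0'
  rw [← hr'] at hp ⊢
  rw [Complex.conj_ofReal, real_pt, E03.aeval_real, Complex.norm_real, hwre, ← hr', Real.norm_of_nonneg hPr'.le] at hS2'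
  have e1 : (r : ℂ) * Complex.exp w = pt r' θ := by
    unfold pt
    rw [hwd, hr', Complex.exp_add]
    push_cast
    ring
  have e2 : (r : ℂ) * Complex.exp (starRingEnd ℂ w) = pt r' (-θ) := by
    have e3 : starRingEnd ℂ w = (u : ℂ) + ((-θ : ℝ) : ℂ) * Complex.I := by
      rw [hwd, map_add, map_mul, Complex.conj_ofReal, Complex.conj_ofReal, Complex.conj_I]
      push_cast
      ring
    unfold pt
    rw [e3, hr', Complex.exp_add]
    push_cast
    ring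
  obtain ⟨l1, hl1, hl1'⟩ := hlf L P h r' hr0' hp θ hθ
  obtain ⟨l2, hl2, hl2'⟩ := hlf L P h r' hr0' hp (-θ) (by rw [abs_neg]; exact hθ)
  rw [abs_neg] at hl2
  have hnorm : ∀ (t : ℝ) (l : ℂ), aeval (pt r' t) P = ((P.eval r' : ℝ) : ℂ) *
      Complex.exp (t * mean P r' * Complex.I - (t : ℂ) ^ 2 / 2 * V P r' + l) →
      ‖aeval (pt r' t) P‖ = P.eval r' * Real.exp (-(t ^ 2 / 2 * V P r') + l.re) := by
    intro t l hl
    rw [hl, norm_mul, Complex.norm_real, Real.norm_of_nonneg hPr'.le, Complex.norm_exp]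
    congr 2
    have e1 : (t : ℂ) ^ 2 / 2 * (V P r' : ℂ) = ((t ^ 2 / 2 * V P r' : ℝ) : ℂ) := by
      push_cast
      ring
    have e2 : ((t : ℂ) * (mean P r' : ℂ) * Complex.I).re = 0 := by
      have : (t : ℂ) * (mean P r' : ℂ) * Complex.I = ((t * mean P r' : ℝ) : ℂ) * Complex.I := by
        push_cast
        ring
      rw [this, Complex.re_ofReal_mul, Complex.I_re, mul_zero]
    rw [Complex.add_re, Complex.sub_re, e1, Complex.ofReal_re, e2]
    ring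
  rw [e1, e2, hnorm θ l1 hl1', hnorm (-θ) l2 hl2'] at hS2
  have hexp : Real.exp (2 * L * S' - θ ^ 2 * V P r' + l1.re + l2.re) = Real.exp (2 * L * S) := by
    have h1 : P.eval r ^ 2 * Real.exp (2 * L * S' - θ ^ 2 * V P r' + l1.re + l2.re) =
        P.eval r ^ 2 * Real.exp (2 * L * S) := by
      rw [← hS2]
      have e4 : 2 * (L : ℝ) * S' - θ ^ 2 * V P r' + l1.re + l2.re =
          2 * L * S' + ((-(θ ^ 2 / 2 * V P r') + l1.re) + (-((-θ) ^ 2 / 2 * V P r') + l2.re)) := by ring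
      rw [e4, Real.exp_add, Real.exp_add, ← mul_assoc, ← hS2']
      ring
    exact mul_left_cancel₀ (by positivity) h1
  have heq := Real.exp_injective hexp
  have hW := W_le' hb h hp
  have hθ3 : 0 ≤ |θ| ^ 3 := by positivity
  have hK1 : K * W P r' * |θ| ^ 3 ≤ K * (1 / b * (1 + 1 / b)) * |θ| ^ 3 * L := by
    calc K * W P r' * |θ| ^ 3 ≤ K * (1 / b * (1 + 1 / b) * L) * |θ| ^ 3 := by gcongr
      _ = _ := by ring
  have ha1 := abs_le.1 ((Complex.abs_re_le_norm l1).trans (hl1.trans hK1))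
  have ha2 := abs_le.1 ((Complex.abs_re_le_norm l2).trans (hl2.trans hK1))
  have hmain : |θ ^ 2 * V P r' / (2 * L) - (S' - S)| ≤ K * (1 / b * (1 + 1 / b)) * |θ| ^ 3 := by
    have e5 : θ ^ 2 * V P r' / (2 * L) - (S' - S) = (l1.re + l2.re) / (2 * L) := by
      have : θ ^ 2 * V P r' = 2 * L * (S' - S) + (l1.re + l2.re) := by linarith
      rw [this]
      field_simp
      ring
    rw [e5, abs_div, abs_of_pos (by positivity : (0 : ℝ) < 2 * L), div_le_iff₀ (by positivity), abs_le]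
    constructor
    · linarith
    · linarith
  rw [hwre] at hd
  have h1 := abs_le.1 hd
  have h2 := abs_le.1 hmain
  rw [abs_le]
  constructor
  · linarith
  · linarith

end Pool.Agent.Helper74.UNI
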