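import Pool.Agent.Helper74.UNI.CoreU
import Pool.Agent.Helper57.EV.Bridge
import Pool.Agent.Helper57.EV4.ToHyp

/-!
# UNI: from the zero-free neighbourhood of the segment `(0, 1)` in `s` to the hypothesis of the core
-/

set_option autoImplicit false

namespace Pool.Agent.Helper74.UNI

open Polynomial Matrix Pool.Agent.Helper76.Conway Pool.Agent.Helper76.Conway.Top Pool.Agent.Helper99.ZB
  Pool.Agent.Helper57.EV Pool.Agent.Helper57.EV2 Pool.Agent.Helper57.EV4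

variable {G : ℕ → Type} [∀ n, Group (G n)] {sg : ∀ n, ℕ → G n} {N : ∀ n, G n → ℤ[X]}

/-- **The value at `1`.** -/
theorem eval_one_le' (h : Mk G sg N) : ∀ (n : ℕ) (w : List ℕ), (∀ a ∈ w, a < n) →
    (N n (V (sg n) w)).eval 1 ≤ 2 ^ w.length := by
  intro n
  induction n with
  | zero =>
    intro w hw
    have hw0 : w = [] := by
      cases w with
      | nil => rfl
      | cons a u => exact absurd (hw a (by simp)) (by omega)
    subst hw0
    rw [V_nil, h.one]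
    simp
  | succ n ihn =>
    intro w hw
    refine word_ind (Pr := fun w => (N (n + 1) (V (sg (n + 1)) w)).eval 1 ≤ 2 ^ w.length) ?_ ?_ ?_ ?_ w hw
    · intro u v e hv
      rw [h.V_eqv e, e.length_eq]
      exact hv
    · intro x j y hb h1 h2
      have hj := hb j (by simp)
      rw [h.quad_word hj, eval_add, eval_mul, eval_X, one_mul]
      have e1 : (x ++ y).length + 2 = (x ++ j :: j :: y).length := by
        simp only [List.length_append, List.length_cons]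
        omega
      have e2 : (x ++ j :: y).length = (x ++ y).length + 1 := by
        simp only [List.length_append, List.length_cons]
        omega
      rw [e2] at h2
      rw [← e1]
      obtain ⟨A, hA⟩ : ∃ A : ℤ, A = 2 ^ (x ++ y).length := ⟨_, rfl⟩
      have hA0 : 0 < A := by rw [hA]; positivity
      rw [pow_succ, ← hA] at h2
      rw [← hA] at h1
      have e3 : (2 : ℤ) ^ ((x ++ y).length + 2) = A * 4 := by
        rw [hA, pow_add]
        norm_num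
      rw [e3]
      linarith
    · intro u hu
      rw [h.zero_of_missing (n + 1) u (fun a ha => by have := hu a ha; omega) n (by omega) (fun ha => by
        have := hu n ha
        omega)]
      simp
    · intro u v hu hv
      rw [h.destab hu hv]
      have h1 := ihn (u ++ v) (fun a ha => (List.mem_append.1 ha).elim (hu a) (hv a))
      have e1 : (u ++ n :: v).length = (u ++ v).length + 1 := by
        simp only [List.length_append, List.length_cons]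
        omega
      rw [e1, pow_succ]
      have : (0 : ℤ) < 2 ^ (u ++ v).length := by positivity
      linarith

/-- the parameter of a positive real number -/
theorem exists_sigma {x : ℝ} (hx : 0 < x) : ∃ σ : ℝ, 0 < σ ∧ σ < 1 ∧ x * σ = 1 - σ ^ 2 := by
  have h1 : x < √(x ^ 2 + 4) := by
    rw [Real.lt_sqrt hx.le]
    linarith
  have h2 : √(x ^ 2 + 4) ^ 2 = x ^ 2 + 4 := Real.sq_sqrt (by positivity)
  obtain ⟨y, hy⟩ : ∃ y, y = √(x ^ 2 + 4) := ⟨_, rfl⟩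
  rw [← hy] at h1 h2
  refine ⟨(y - x) / 2, by linarith, ?_, by nlinarith⟩
  by_contra hcon
  push Not at hcon
  have h3 : (x + 2) ^ 2 ≤ y ^ 2 := pow_le_pow_left₀ (by linarith) (by linarith) 2
  nlinarith

/-- the zero-free neighbourhood, for all positive words -/
def NZ : Prop := ∀ σ : ℝ, 0 < σ → σ < 1 → ∀ s : ℂ, ‖s‖ ≤ 1 →
  ‖s - σ‖ < σ ^ 5 * (1 - σ ^ 2) ^ 3 * (1 - σ) / 64 → ∀ (n : ℕ) (w : List ℕ), (∀ a ∈ w, a < n) → (∀ a < n, a ∈ w) →
    w ≠ [] → det (1 - W s n w) ≠ 0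

/-- **No zeros near the positive axis**, in the variable `z`. -/
theorem no_zero (hNZ : NZ) (h : Mk G sg N) {n : ℕ} {w : List ℕ} (hw : ∀ a ∈ w, a < n)
    (hf : ∀ a < n, a ∈ w) (hne : w ≠ []) {z : ℂ} (hz : aeval z (N n (V (sg n) w)) = 0)
    {x m : ℝ} (hm : 0 < m) (hx1 : 10 * m ≤ x) (hx2 : x ≤ 4) :
    m ^ 5 / (5 ^ 5 * 64) ≤ ‖z - x‖ := by
  by_contra hcon
  push Not at hcon
  have hx0 : 0 < x := by linarith
  obtain ⟨σ, hσ0, hσ1, hσ⟩ := exists_sigma hx0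
  obtain ⟨s, hs0, hs1, hzs⟩ := exists_s z
  have hσ5 : 1 / 5 ≤ σ := by nlinarith
  have hσm : m ≤ 1 - σ := by
    have h1 : (1 - σ) * (1 + σ) = x * σ := by rw [hσ]; ring
    have h2 : x * σ ≤ (1 - σ) * 2 := by
      rw [← h1]
      exact mul_le_mul_of_nonneg_left (by linarith) (by linarith)
    nlinarith
  -- the distance of `s` and `σ`
  have hxσ : (x : ℂ) = (σ : ℂ)⁻¹ - σ := by
    have h1 : (σ : ℂ) ≠ 0 := by exact_mod_cast hσ0.ne'
    have h2 : (x : ℂ) * σ = 1 - (σ : ℂ) ^ 2 := by exact_mod_cast hσ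
    field_simp
    linear_combination h2
  have hσc : (σ : ℂ) ≠ 0 := by exact_mod_cast hσ0.ne'
  have e1 : (z - x) * (s * σ) = -((s - σ) * (1 + s * σ)) := by
    rw [hzs, hxσ]
    field_simp
    ring
  have h1σ : 1 - σ ≤ ‖1 + s * σ‖ := by
    have h2 : ‖s * (σ : ℂ)‖ ≤ σ := by
      rw [norm_mul, Complex.norm_real, Real.norm_of_nonneg hσ0.le]
      nlinarith [norm_nonneg s]
    have h3 := norm_sub_norm_le (1 : ℂ) (-(s * (σ : ℂ)))
    rw [norm_one, norm_neg, sub_neg_eq_add] at h3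
    linarith
  have e2 : ‖s - σ‖ * (1 - σ) ≤ ‖z - x‖ := by
    have h2 : ‖z - x‖ * ‖s * (σ : ℂ)‖ = ‖s - σ‖ * ‖1 + s * σ‖ := by
      rw [← norm_mul, e1, norm_neg, norm_mul]
    have h3 : ‖s * (σ : ℂ)‖ ≤ 1 := by
      rw [norm_mul, Complex.norm_real, Real.norm_of_nonneg hσ0.le]
      nlinarith [norm_nonneg s]
    calc ‖s - σ‖ * (1 - σ) ≤ ‖s - σ‖ * ‖1 + s * σ‖ := mul_le_mul_of_nonneg_left h1σ (norm_nonneg _)
      _ = ‖z - x‖ * ‖s * (σ : ℂ)‖ := h2.symm
      _ ≤ ‖z - x‖ * 1 := mul_le_mul_of_nonneg_left h3 (norm_nonneg _)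
      _ = ‖z - x‖ := mul_one _
  have h2σ : m ≤ 1 - σ ^ 2 := by nlinarith
  have key : m ^ 5 / (5 ^ 5 * 64) ≤ σ ^ 5 * (1 - σ ^ 2) ^ 3 * (1 - σ) / 64 * (1 - σ) := by
    have h3 : (1 / 5 : ℝ) ^ 5 ≤ σ ^ 5 := pow_le_pow_left₀ (by norm_num) hσ5 5
    have h4 : m ^ 3 ≤ (1 - σ ^ 2) ^ 3 := pow_le_pow_left₀ hm.le h2σ 3
    calc m ^ 5 / (5 ^ 5 * 64) = (1 / 5 : ℝ) ^ 5 * m ^ 3 * m / 64 * m := by ring
      _ ≤ σ ^ 5 * (1 - σ ^ 2) ^ 3 * (1 - σ) / 64 * (1 - σ) := by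
        have h5 : 0 ≤ 1 - σ ^ 2 := by linarith
        have h6 : 0 ≤ 1 - σ := by linarith
        gcongr
  have hd : ‖s - σ‖ < σ ^ 5 * (1 - σ ^ 2) ^ 3 * (1 - σ) / 64 := by
    have h3 : ‖s - σ‖ * (1 - σ) < σ ^ 5 * (1 - σ ^ 2) ^ 3 * (1 - σ) / 64 * (1 - σ) := by linarith
    exact lt_of_mul_lt_mul_right h3 (by linarith)
  have hs2 : ‖s‖ < 1 := by
    have h3 := norm_sub_norm_le s (σ : ℂ)
    rw [Complex.norm_real, Real.norm_of_nonneg hσ0.le] at h3
    have h4 : σ ^ 5 * (1 - σ ^ 2) ^ 3 * (1 - σ) / 64 ≤ 1 - σ := by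
      have h5 : σ ^ 5 ≤ 1 := pow_le_one₀ hσ0.le hσ1.le
      have h6 : (1 - σ ^ 2) ^ 3 ≤ 1 := pow_le_one₀ (by linarith) (by nlinarith)
      have h7 : σ ^ 5 * (1 - σ ^ 2) ^ 3 ≤ 1 := mul_le_one₀ h5 (pow_nonneg (by linarith) 3) h6
      have h8 : σ ^ 5 * (1 - σ ^ 2) ^ 3 * (1 - σ) ≤ 1 * (1 - σ) := mul_le_mul_of_nonneg_right h7 (by linarith)
      linarith
    linarith
  have h3 := eval_eq h hs0 hs2 n w hw
  rw [← hzs, hz, zero_mul, zero_mul] at h3
  exact hNZ σ hσ0 hσ1 s hs1 hd n w hw hf hne h3.symm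

/-- the relative distance from the positive axis above `r₀` -/
noncomputable def bU (r₀ : ℝ) : ℝ := min (1 / 3) (√r₀ * ((√r₀ / 10) ^ 5 / (5 ^ 5 * 64)) / 24)

theorem bU_pos {r₀ : ℝ} (hr : 0 < r₀) : 0 < bU r₀ := by
  have : 0 < √r₀ := Real.sqrt_pos.2 hr
  unfold bU
  exact lt_min (by norm_num) (by positivity)

theorem bU_le (r₀ : ℝ) : bU r₀ ≤ 1 := by
  unfold bU
  exact (min_le_left _ _).trans (by norm_num)

/-- **The distance of the roots from the positive axis above `r₀`.** -/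
theorem dist_of (hNZ : NZ) (h : Mk G sg N) {n : ℕ} {w : List ℕ} (hw : ∀ a ∈ w, a < n)
    (hf : ∀ a < n, a ∈ w) (hne : w ≠ []) {r₀ : ℝ} (hr0 : 0 < r₀)
    (hall : ∀ ρ ∈ EVC.Z (half (N n (V (sg n) w))), ∀ z : ℂ, z ^ 2 = ρ → aeval z (N n (V (sg n) w)) = 0)
    {ρ : ℂ} (hρ : ρ ∈ EVC.Z (half (N n (V (sg n) w)))) {r : ℝ} (hr : r₀ ≤ r) :
    bU r₀ * (r + ‖ρ‖) ≤ ‖(r : ℂ) - ρ‖ := by
  have hrp : 0 < r := lt_of_lt_of_le hr0 hr
  obtain ⟨y, hy⟩ := IsAlgClosed.exists_pow_nat_eq ρ (n := 2) (by norm_num)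
  -- a square root with nonnegative real part
  obtain ⟨z, hz, hzre⟩ : ∃ z : ℂ, z ^ 2 = ρ ∧ 0 ≤ z.re := by
    rcases le_total 0 y.re with h1 | h1
    · exact ⟨y, hy, h1⟩
    · exact ⟨-y, by rw [neg_sq]; exact hy, by rw [Complex.neg_re]; linarith⟩
  have hz0 := hall ρ hρ z hz
  have h8 := zero_bound_eight h hw hf hz0
  have hρ8 : ‖ρ‖ ≤ 8 := by rw [← hz, norm_pow]; exact h8
  have hρn := norm_nonneg ρ
  have hb1 : bU r₀ ≤ 1 / 3 := by unfold bU; exact min_le_left _ _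
  have hb2 : bU r₀ ≤ √r₀ * ((√r₀ / 10) ^ 5 / (5 ^ 5 * 64)) / 24 := by unfold bU; exact min_le_right _ _
  have hb0 := bU_pos hr0
  rcases le_or_gt 16 r with h1 | h1
  · have h2 := norm_sub_norm_le (r : ℂ) ρ
    rw [Complex.norm_real, Real.norm_of_nonneg hrp.le] at h2
    nlinarith
  · have hs0 : 0 < √r₀ := Real.sqrt_pos.2 hr0
    have hsr : √r₀ ≤ √r := Real.sqrt_le_sqrt hr
    have hx0 : 0 < √r := by linarith
    have hx4 : √r ≤ 4 := by
      rw [Real.sqrt_le_left (by norm_num)]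
      norm_num
      exact h1.le
    have h2 := no_zero hNZ h hw hf hne hz0 (x := √r) (m := √r₀ / 10) (by positivity) (by linarith) hx4
    have h3 : ‖(r : ℂ) - ρ‖ = ‖z - √r‖ * ‖z + √r‖ := by
      rw [← norm_mul]
      have e1 : (z - (√r : ℂ)) * (z + (√r : ℂ)) = -((r : ℂ) - ρ) := by
        have e2 : ((√r : ℝ) : ℂ) ^ 2 = (r : ℂ) := by
          rw [← Complex.ofReal_pow, Real.sq_sqrt hrp.le]
        rw [← hz]
        linear_combination -e2
      rw [e1, norm_neg]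
    have h4 : √r ≤ ‖z + √r‖ := by
      have h5 := (le_abs_self _).trans (Complex.abs_re_le_norm (z + (√r : ℂ)))
      rw [Complex.add_re, Complex.ofReal_re] at h5
      linarith
    rw [h3]
    calc bU r₀ * (r + ‖ρ‖) ≤ √r₀ * ((√r₀ / 10) ^ 5 / (5 ^ 5 * 64)) / 24 * 24 := by
          refine mul_le_mul hb2 (by linarith) (by linarith) (by positivity)
      _ = ((√r₀ / 10) ^ 5 / (5 ^ 5 * 64)) * √r₀ := by ring
      _ ≤ ‖z - √r‖ * ‖z + √r‖ := mul_le_mul h2 (hsr.trans h4) hs0.le (norm_nonneg _)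

/-- **The hypothesis of the core**, with the decay as an assumption. -/
theorem hypU_of (hNZ : NZ) (h : Mk G sg N) {n : ℕ} {w : List ℕ} (hw : ∀ a ∈ w, a < n)
    (hf : ∀ a < n, a ∈ w) (hne : w ≠ []) {r₀ κ : ℝ} (hr0 : 0 < r₀)
    (dec : ∀ r θ : ℝ, r₀ ≤ r → |θ| ≤ Real.pi → ‖aeval (EVC.pt r θ) (half (N n (V (sg n) w)))‖ ≤
      Real.exp (-(κ * w.length * Pool.Agent.Helper74.EV4.wt r * (1 - Real.cos θ))) * (half (N n (V (sg n) w))).eval r) :
    HypU (bU r₀) 8 κ r₀ w.length (half (N n (V (sg n) w))) := by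
  obtain ⟨p, hp⟩ : ∃ p, p = N n (V (sg n) w) := ⟨_, rfl⟩
  obtain ⟨h0, hpar', hnn, h1, hdeg, hev, -⟩ := word h hw hf hp
  have hpar : ∀ j k, p.coeff j ≠ 0 → p.coeff k ≠ 0 → j % 2 = k % 2 := by
    intro j k hj hk
    have e1 : ¬ (j + (w.length - n)) % 2 = 1 := fun e => hj (hpar' j e)
    have e2 : ¬ (k + (w.length - n)) % 2 = 1 := fun e => hk (hpar' k e)
    omega
  have hall : ∀ ρ ∈ EVC.Z (half p), ∀ z : ℂ, z ^ 2 = ρ → aeval z p = 0 := by
    intro ρ hρ z hz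
    have h2 : aeval ρ (half p) = 0 := by
      unfold EVC.Z at hρ
      have h3 := (mem_roots'.1 hρ).2
      rw [IsRoot.def, eval_map_algebraMap] at h3
      exact h3
    rw [hev z, hz, h2, mul_zero]
  have hup : (half p).eval 1 ≤ 4 ^ w.length := by
    have h3 := hev 1
    have h4 : aeval (1 : ℂ) p = ((p.eval 1 : ℤ) : ℂ) := by
      have := aeval_algebraMap_apply (A := ℤ) (B := ℂ) (x := 1) (p := p)
      simpa using this
    have h5 : aeval ((1 : ℂ) ^ 2) (half p) = (((half p).eval 1 : ℝ) : ℂ) := by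
      rw [one_pow, ← Complex.ofReal_one, ← Complex.coe_algebraMap, aeval_algebraMap_apply, coe_aeval_eq_eval]
    rw [h4, h5, one_pow, one_mul] at h3
    have h6 : (half p).eval 1 = ((p.eval 1 : ℤ) : ℝ) := by exact_mod_cast h3.symm
    rw [h6]
    have h7 := eval_one_le' h n w hw
    rw [← hp] at h7
    have h8 : ((p.eval 1 : ℤ) : ℝ) ≤ 2 ^ w.length := by exact_mod_cast h7
    exact h8.trans (pow_le_pow_left₀ (by norm_num) (by norm_num) _)
  refine { toNice := ⟨?_, ?_, ?_⟩, dist := ?_, far := ?_, up := ?_, dec := dec }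
  · rw [← hp]; exact hnn
  · rw [← hp]; exact h1
  · rw [← hp]; exact hdeg
  · intro ρ hρ r hr
    exact dist_of hNZ h hw hf hne hr0 (by rw [← hp]; exact hall) hρ hr
  · intro ρ hρ
    obtain ⟨z, hz⟩ := IsAlgClosed.exists_pow_nat_eq ρ (n := 2) (by norm_num)
    rw [← hp] at hρ
    have h2 := hall ρ hρ z hz
    rw [hp] at h2
    have h3 := zero_bound_eight h hw hf h2
    rw [← hz, norm_pow]
    exact h3
  · rw [← hp]; exact hup

end Pool.Agent.Helper74.UNI
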